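import Mathlib

open Filter Topology Set

namespace Pool.Agent.T2H59.RR

/-- the polynomial `abc + (1-a)(1-b)(1-c)` -/
def G (a b c : ℝ) : ℝ := a * b * c + (1 - a) * (1 - b) * (1 - c)

/-- one step `(x_{n-2}, x_{n-1}, x_n) ↦ (x_{n-1}, x_n, x_{n+1})` of the recurrence -/
noncomputable def step (p : ℝ × ℝ × ℝ) : ℝ × ℝ × ℝ :=
  (p.2.1, p.2.2, 2 * p.1 / (1 + p.2.2 + p.2.1))

/-- the term `x_{n-2}` of the solution with initial triple `p = (x_{-2}, x_{-1}, x_0)` -/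
noncomputable def term (p : ℝ × ℝ × ℝ) (n : ℕ) : ℝ := (step^[n] p).1

/-- positive triples -/
def Pos : Set (ℝ × ℝ × ℝ) := {p | 0 < p.1 ∧ 0 < p.2.1 ∧ 0 < p.2.2}

/-- the set `𝓑` of the initial triples of the bounded solutions -/
def B : Set (ℝ × ℝ × ℝ) := {p | p ∈ Pos ∧ ∃ M : ℝ, ∀ n, term p n ≤ M}

/-- the residue class `i` tends to zero, the other two to one -/
def Cyc (x : ℕ → ℝ) (i : ℕ) : Prop :=
  Tendsto (fun k => x (3 * k + i)) atTop (𝓝 0) ∧
    Tendsto (fun k => x (3 * k + i + 1)) atTop (𝓝 1) ∧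
    Tendsto (fun k => x (3 * k + i + 2)) atTop (𝓝 1)

/-- the residue class `i` tends to infinity, the other two to zero -/
def Blow (x : ℕ → ℝ) (i : ℕ) : Prop :=
  Tendsto (fun k => x (3 * k + i)) atTop atTop ∧
    Tendsto (fun k => x (3 * k + i + 1)) atTop (𝓝 0) ∧
    Tendsto (fun k => x (3 * k + i + 2)) atTop (𝓝 0)

/-- the initial triples of the solutions of which class `i` tends to infinity -/
def U (i : ℕ) : Set (ℝ × ℝ × ℝ) := {p | p ∈ Pos ∧ Blow (term p) i}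

end Pool.Agent.T2H59.RR
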