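import Pool.Agent.T2H59.RR.Defs

open Filter Topology Set

namespace Pool.Agent.T2H59.RR

/-- positive solutions; `x n` is the term with index `n - 2` -/
structure Sol (x : ℕ → ℝ) : Prop where
  pos : ∀ n, 0 < x n
  eqn : ∀ n, x (n + 3) = 2 * x n / (1 + x (n + 2) + x (n + 1))

/-- value of the Lyapunov function at time `n` -/
def GG (x : ℕ → ℝ) (n : ℕ) : ℝ := G (x n) (x (n + 1)) (x (n + 2))

variable {x : ℕ → ℝ}

lemma Sol.shift (h : Sol x) (m : ℕ) : Sol (fun n => x (n + m)) where
  pos := fun n => h.pos _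
  eqn := fun n => by
    have := h.eqn (n + m)
    show x (n + 3 + m) = 2 * x (n + m) / (1 + x (n + 2 + m) + x (n + 1 + m))
    rw [show n + 3 + m = n + m + 3 by ring, this, show n + 2 + m = n + m + 2 by ring,
      show n + 1 + m = n + m + 1 by ring]

lemma Sol.step (h : Sol x) (n : ℕ) :
    GG x (n + 1) = GG x n - x n * (x (n + 1) + x (n + 2) - 1) ^ 2 /
      (1 + x (n + 2) + x (n + 1)) := by
  unfold GG G
  rw [show n + 1 + 2 = n + 3 by ring, show n + 1 + 1 = n + 2 by ring, h.eqn n]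
  have h1 := h.pos n
  have h2 := h.pos (n + 1)
  have h3 := h.pos (n + 2)
  field_simp
  ring

lemma Sol.anti (h : Sol x) : Antitone (GG x) := by
  apply antitone_nat_of_succ_le
  intro n
  rw [h.step n]
  have h1 := h.pos n
  have h2 := h.pos (n + 1)
  have h3 := h.pos (n + 2)
  have : 0 ≤ x n * (x (n + 1) + x (n + 2) - 1) ^ 2 / (1 + x (n + 2) + x (n + 1)) := by positivity
  linarith

/-- a negative value of `G` with the first coordinate larger than one -/
lemma small_of_neg {a b c : ℝ} (hb : 0 < b) (hc : 0 < c) (ha : 1 < a) (hG : G a b c < 0) :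
    b + c < 1 := by
  unfold G at hG
  by_contra hcon
  push Not at hcon
  nlinarith [mul_nonneg (sub_nonneg.2 ha.le) (sub_nonneg.2 hcon), mul_pos hb hc]

/-- negative `G`: exactly one coordinate is larger than one -/
lemma exists_big {a b c : ℝ} (ha : 0 < a) (hb : 0 < b) (hc : 0 < c) (hG : G a b c < 0) :
    1 < a ∨ 1 < b ∨ 1 < c := by
  by_contra hcon
  push Not at hcon
  obtain ⟨h1, h2, h3⟩ := hcon
  unfold G at hG
  have : 0 ≤ (1 - a) * (1 - b) * (1 - c) :=
    mul_nonneg (mul_nonneg (by linarith) (by linarith)) (by linarith)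
  have : 0 < a * b * c := by positivity
  linarith

/-- the state at time `3k`: `G < 0`, first coordinate large -/
lemma Sol.blow_aux (h : Sol x) (h0 : 1 < x 0) (hG : GG x 0 < 0) (k : ℕ) :
    x 0 ≤ x (3 * k) ∧ x (3 * k) ≤ x (3 * k + 3) ∧ x (3 * k + 1) + x (3 * k + 2) < 1 ∧
      x (3 * k + 1) ≤ (2 / (1 + x 0)) ^ k ∧ x (3 * k + 2) ≤ (2 / (1 + x 0)) ^ k := by
  have hneg : ∀ n, GG x n < 0 := fun n => lt_of_le_of_lt (h.anti (Nat.zero_le n)) hG
  have hup : ∀ j, 1 < x j → x j ≤ x (j + 3) ∧ x (j + 1) + x (j + 2) < 1 := by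
    intro j hj
    have hs := small_of_neg (h.pos (j + 1)) (h.pos (j + 2)) hj (hneg j)
    refine ⟨?_, hs⟩
    rw [h.eqn j, le_div_iff₀ (by linarith [h.pos (j + 1), h.pos (j + 2)])]
    nlinarith [h.pos j, h.pos (j + 1), h.pos (j + 2)]
  induction k with
  | zero =>
    have h1 := hup 0 h0
    refine ⟨le_rfl, by simpa using h1.1, by simpa using h1.2, ?_, ?_⟩
    · simp only [mul_zero, zero_add, pow_zero]
      have := h1.2
      simp only [zero_add] at this
      linarith [h.pos 1, h.pos 2]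
    · simp only [mul_zero, zero_add, pow_zero]
      have := h1.2
      simp only [zero_add] at this
      linarith [h.pos 1, h.pos 2]
  | succ k ih =>
    obtain ⟨i1, i2, i3, i4, i5⟩ := ih
    have e : 3 * (k + 1) = 3 * k + 3 := by ring
    rw [e]
    have hX : x 0 ≤ x (3 * k + 3) := i1.trans i2
    have h1 := hup (3 * k + 3) (by linarith)
    refine ⟨hX, h1.1, h1.2, ?_, ?_⟩
    · have hr := h.eqn (3 * k + 1)
      rw [show 3 * k + 1 + 3 = 3 * k + 3 + 1 by ring, show 3 * k + 1 + 2 = 3 * k + 3 by ring] at hr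
      rw [hr, pow_succ, div_le_iff₀ (by linarith [h.pos (3 * k + 1 + 1)])]
      have hp := h.pos (3 * k + 1 + 1)
      have hq := h.pos (3 * k + 1)
      have e2 : (2 / (1 + x 0)) ^ k * (2 / (1 + x 0)) * (1 + x (3 * k + 3) + x (3 * k + 1 + 1)) =
          2 * ((2 / (1 + x 0)) ^ k * ((1 + x (3 * k + 3) + x (3 * k + 1 + 1)) / (1 + x 0))) := by
        field_simp
      rw [e2]
      have h5 : 1 ≤ (1 + x (3 * k + 3) + x (3 * k + 1 + 1)) / (1 + x 0) := by
        rw [le_div_iff₀ (by linarith)]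
        linarith
      have h6 : 0 ≤ (2 / (1 + x 0)) ^ k := by positivity
      nlinarith
    · have hr := h.eqn (3 * k + 2)
      rw [show 3 * k + 2 + 3 = 3 * k + 3 + 2 by ring, show 3 * k + 2 + 2 = 3 * k + 4 by ring,
        show 3 * k + 2 + 1 = 3 * k + 3 by ring] at hr
      have hp := h.pos (3 * k + 4)
      have hq := h.pos (3 * k + 2)
      rw [hr, pow_succ, div_le_iff₀ (by linarith)]
      have e2 : (2 / (1 + x 0)) ^ k * (2 / (1 + x 0)) * (1 + x (3 * k + 4) + x (3 * k + 3)) =
          2 * ((2 / (1 + x 0)) ^ k * ((1 + x (3 * k + 4) + x (3 * k + 3)) / (1 + x 0))) := by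
        field_simp
      rw [e2]
      have h5 : 1 ≤ (1 + x (3 * k + 4) + x (3 * k + 3)) / (1 + x 0) := by
        rw [le_div_iff₀ (by linarith)]
        linarith
      have h6 : 0 ≤ (2 / (1 + x 0)) ^ k := by positivity
      nlinarith

/-- blow-up of one residue class, decay of the others -/
lemma Sol.blow (h : Sol x) (h0 : 1 < x 0) (hG : GG x 0 < 0) :
    Tendsto (fun k => x (3 * k)) atTop atTop ∧ Tendsto (fun k => x (3 * k + 1)) atTop (𝓝 0) ∧
      Tendsto (fun k => x (3 * k + 2)) atTop (𝓝 0) := by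
  have haux := h.blow_aux h0 hG
  set ρ := 2 / (1 + x 0) with hρ
  have hρ0 : 0 ≤ ρ := by positivity
  have hρ1 : ρ < 1 := by
    rw [hρ, div_lt_one (by linarith)]
    linarith
  have hpow : Tendsto (fun k : ℕ => ρ ^ k) atTop (𝓝 0) := tendsto_pow_atTop_nhds_zero_of_lt_one hρ0 hρ1
  refine ⟨?_, ?_, ?_⟩
  · obtain ⟨K, hK⟩ := Filter.eventually_atTop.1 (hpow.eventually (gt_mem_nhds (show (0:ℝ) < 1/4 by norm_num)))
    have hstep : ∀ k, K ≤ k → (4/3) * x (3 * k) ≤ x (3 * (k + 1)) := by
      intro k hk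
      have h1 := haux k
      have h2 := hK k hk
      rw [show 3 * (k + 1) = 3 * k + 3 by ring, h.eqn (3 * k),
        le_div_iff₀ (by linarith [h.pos (3 * k + 1), h.pos (3 * k + 2)])]
      have h3 : x (3 * k + 2) + x (3 * k + 1) ≤ 1/2 := by linarith [h1.2.2.2.1, h1.2.2.2.2]
      nlinarith [h.pos (3 * k)]
    have hge : ∀ j, (4/3 : ℝ) ^ j * x (3 * K) ≤ x (3 * (j + K)) := by
      intro j
      induction j with
      | zero => simp
      | succ j ih =>
        have h1 := hstep (j + K) (by omega)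
        rw [show j + 1 + K = j + K + 1 by ring, pow_succ]
        nlinarith
    rw [← tendsto_add_atTop_iff_nat K]
    apply tendsto_atTop_mono hge
    apply Tendsto.atTop_mul_const (h.pos _)
    exact tendsto_pow_atTop_atTop_of_one_lt (by norm_num)
  · exact tendsto_of_tendsto_of_tendsto_of_le_of_le tendsto_const_nhds hpow
      (fun k => (h.pos _).le) (fun k => (haux k).2.2.2.1)
  · exact tendsto_of_tendsto_of_tendsto_of_le_of_le tendsto_const_nhds hpow
      (fun k => (h.pos _).le) (fun k => (haux k).2.2.2.2)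

/-- a large term forces a negative value of `G` -/
lemma Sol.neg_of_large (h : Sol x) (n : ℕ) (hn : 4 + 2 * |GG x 0| < x (n + 2)) :
    GG x (n + 2) < 0 := by
  have hG : GG x n ≤ |GG x 0| := (h.anti (Nat.zero_le n)).trans (le_abs_self _)
  set g := |GG x 0| with hg
  have hg0 : 0 ≤ g := abs_nonneg _
  have ha := h.pos n
  have hb := h.pos (n + 1)
  have hX := h.pos (n + 2)
  have ha' := h.pos (n + 3)
  have hb' := h.pos (n + 4)
  have r1 := h.eqn n
  have r2 := h.eqn (n + 1)
  rw [show n + 1 + 3 = n + 4 by ring, show n + 1 + 2 = n + 3 by ring,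
    show n + 1 + 1 = n + 2 by ring] at r2
  rw [eq_div_iff (by linarith)] at r1 r2
  unfold GG G at hG ⊢
  rw [show n + 2 + 1 = n + 3 by ring, show n + 2 + 2 = n + 4 by ring]
  set a := x n
  set b := x (n + 1)
  set X := x (n + 2)
  set a' := x (n + 3)
  set b' := x (n + 4)
  have k1 : (X - 1) * (a + b - 1) ≤ g := by nlinarith [mul_pos ha hb]
  -- a' (1 + X + b) = 2 a, b' (1 + a' + X) = 2 b
  have k2 : (a' + b') * (1 + X) ≤ 2 * (a + b) := by nlinarith [mul_pos ha' hb, mul_pos hb' ha']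
  have k3 : (X - 1) * (a + b) ≤ g + (X - 1) := by nlinarith
  have k4 : (X - 1) * (a' + b') * (1 + X) ≤ 2 * g + 2 * (X - 1) := by nlinarith
  have k5 : (X - 1) * (a' + b') ≤ g + 2 := by
    by_contra hcon
    push Not at hcon
    have : (g + 2) * (1 + X) < (X - 1) * (a' + b') * (1 + X) :=
      mul_lt_mul_of_pos_right hcon (by linarith)
    nlinarith
  have k6 : a' * b' ≤ 1 := by
    have h7 : a' + b' ≤ 1 := by
      by_contra hcon
      push Not at hcon
      have : (X - 1) * 1 < (X - 1) * (a' + b') := mul_lt_mul_of_pos_left hcon (by linarith)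
      linarith
    nlinarith
  nlinarith

end Pool.Agent.T2H59.RR
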