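import Pool.Agent.T2H59.RR.R9

open Filter Topology Set MeasureTheory
open scoped ENNReal

namespace Pool.Agent.T2H59.RR

theorem rel_of_tendsto {x z : ℕ → ℝ} (hx : Sol x) (hz : Sol z) (lx : Tendsto x atTop (𝓝 (1/2)))
    (lz : Tendsto z atTop (𝓝 (1/2))) (n : ℕ) : Rel (dl x z) n := by
  by_contra hn
  have hun : ∀ m, ¬ Rel (dl x z) (n + m) := by
    intro m
    induction m with
    | zero => exact hn
    | succ m ih => exact fun h => ih (rel_back hx hz h)
  have hlx : Tendsto (fun n => Real.log (x n)) atTop (𝓝 (Real.log (1/2))) :=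
    (Real.continuousAt_log (by norm_num)).tendsto.comp lx
  have hlz : Tendsto (fun n => Real.log (z n)) atTop (𝓝 (Real.log (1/2))) :=
    (Real.continuousAt_log (by norm_num)).tendsto.comp lz
  obtain ⟨ε, hε, hst⟩ := strict
  have ex : ∀ᶠ n in atTop, |Real.log (x n) - Real.log (1/2)| < ε := by
    have := Metric.tendsto_nhds.1 hlx ε hε
    simpa only [Real.dist_eq] using this
  have ez : ∀ᶠ n in atTop, |Real.log (z n) - Real.log (1/2)| < ε := by
    have := Metric.tendsto_nhds.1 hlz ε hε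
    simpa only [Real.dist_eq] using this
  obtain ⟨N, hN⟩ := (ex.and ez).exists_forall_of_atTop
  set d := dl x z with hd
  set q : ℕ → ℝ := fun m => QF (d m) (d (m + 1)) (d (m + 2)) with hq
  have hstep : ∀ m, N ≤ m → q m + (d m ^ 2 + d (m + 1) ^ 2 + d (m + 2) ^ 2) / 4 ≤ q (m + 1) := by
    intro m hm
    have px := hx.pos m
    have px1 := hx.pos (m + 1)
    have px2 := hx.pos (m + 2)
    have pz := hz.pos m
    have pz1 := hz.pos (m + 1)
    have pz2 := hz.pos (m + 2)
    have rx : Real.log (x (m + 3)) = Real.log 2 + Real.log (x m) -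
        Real.log (1 + x (m + 2) + x (m + 1)) := by
      rw [hx.eqn m, Real.log_div (by positivity) (by positivity),
        Real.log_mul (by norm_num) px.ne']
    have rz : Real.log (z (m + 3)) = Real.log 2 + Real.log (z m) -
        Real.log (1 + z (m + 2) + z (m + 1)) := by
      rw [hz.eqn m, Real.log_div (by positivity) (by positivity),
        Real.log_mul (by norm_num) pz.ne']
    have h1 := hst (Real.log (x (m + 1))) (Real.log (x (m + 2))) (Real.log (z (m + 1)))
      (Real.log (z (m + 2))) (hN (m + 1) (by omega)).1 (hN (m + 2) (by omega)).1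
      (hN (m + 1) (by omega)).2 (hN (m + 2) (by omega)).2
    rw [Real.exp_log px1, Real.exp_log px2, Real.exp_log pz1, Real.exp_log pz2] at h1
    have h2 := QF_step (d m) (d (m + 1)) (d (m + 2))
      (-(Real.log (1 + x (m + 2) + x (m + 1)) - Real.log (1 + z (m + 2) + z (m + 1)) -
        ((Real.log (x (m + 1)) - Real.log (z (m + 1))) / 4 +
          (Real.log (x (m + 2)) - Real.log (z (m + 2))) / 4))) (by rw [neg_sq]; exact h1)
    have e3 : d (m + 3) = d m - d (m + 1) / 4 - d (m + 2) / 4 +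
      (-(Real.log (1 + x (m + 2) + x (m + 1)) - Real.log (1 + z (m + 2) + z (m + 1)) -
        ((Real.log (x (m + 1)) - Real.log (z (m + 1))) / 4 +
          (Real.log (x (m + 2)) - Real.log (z (m + 2))) / 4))) := by
      rw [hd]
      unfold dl
      rw [rx, rz]
      ring
    rw [← e3] at h2
    exact h2
  have hdl : Tendsto d atTop (𝓝 0) := by
    have := hlx.sub hlz
    rwa [sub_self] at this
  have hd1 : Tendsto (fun n => d (n + 1)) atTop (𝓝 0) := hdl.comp (tendsto_add_atTop_nat 1)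
  have hd2 : Tendsto (fun n => d (n + 2)) atTop (𝓝 0) := hdl.comp (tendsto_add_atTop_nat 2)
  have hlim : Tendsto q atTop (𝓝 0) := by
    have hc : Continuous (fun t : ℝ × ℝ × ℝ => QF t.1 t.2.1 t.2.2) := by
      unfold QF
      fun_prop
    have h1 := (hc.tendsto (0, 0, 0)).comp (hdl.prodMk_nhds (hd1.prodMk_nhds hd2))
    have e : QF (0 : ℝ) 0 0 = 0 := by unfold QF; norm_num
    simp only [e] at h1
    exact h1
  have hM : ¬ Rel d (max n N) := by
    have := hun (max n N - n)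
    rwa [Nat.add_sub_cancel' (le_max_left _ _)] at this
  obtain ⟨q0, qpos⟩ := QF_nonneg hM
  set M := max n N with hMdef
  have hMN : N ≤ M := le_max_right _ _
  have h1 : 0 < q (M + 1) := by
    have := hstep M hMN
    have e : q M = QF (d M) (d (M + 1)) (d (M + 2)) := rfl
    rw [e] at this
    linarith
  have h2 : ∀ k, q (M + 1) ≤ q (k + (M + 1)) := by
    intro k
    induction k with
    | zero => rw [zero_add]
    | succ k ih =>
      have := hstep (k + (M + 1)) (by omega)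
      rw [show k + 1 + (M + 1) = k + (M + 1) + 1 by ring]
      have p : 0 ≤ (d (k + (M + 1)) ^ 2 + d (k + (M + 1) + 1) ^ 2 + d (k + (M + 1) + 2) ^ 2) / 4 := by
        positivity
      linarith
  have h3 : Tendsto (fun k => q (k + (M + 1))) atTop (𝓝 0) :=
    hlim.comp (tendsto_add_atTop_nat (M + 1))
  have := ge_of_tendsto' h3 h2
  linarith

theorem uniq {x z : ℕ → ℝ} (hx : Sol x) (hz : Sol z) (lx : Tendsto x atTop (𝓝 (1/2)))
    (lz : Tendsto z atTop (𝓝 (1/2))) (h : x 0 = z 0) : x 1 = z 1 ∧ x 2 = z 2 := by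
  have key : ∀ {x z : ℕ → ℝ}, Sol x → Sol z → Tendsto x atTop (𝓝 (1/2)) →
      Tendsto z atTop (𝓝 (1/2)) → x 0 = z 0 → x 1 ≤ z 1 → x 2 ≤ z 2 →
      x 1 = z 1 ∧ x 2 = z 2 := by
    intro x z hx hz lx lz h h1 h2
    by_contra hne
    have hlt : x 1 + x 2 < z 1 + z 2 := by
      by_contra hcon
      exact hne ⟨by linarith, by linarith⟩
    have p1 := hx.pos 1
    have p2 := hx.pos 2
    have p0 := hx.pos 0
    have s3 : z 3 < x 3 := by
      have e1 : x 3 = 2 * x 0 / (1 + x 2 + x 1) := hx.eqn 0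
      have e2 : z 3 = 2 * z 0 / (1 + z 2 + z 1) := hz.eqn 0
      rw [e1, e2, h]
      exact div_lt_div_of_pos_left (by rw [← h]; positivity) (by positivity) (by linarith)
    rcases rel_of_tendsto hx hz lx lz 1 with ⟨r1, r2, r3⟩ | ⟨r1, r2, r3⟩
    · rw [dl_nonpos hx hz] at r3
      exact absurd r3 (not_le.2 s3)
    · rw [dl_nonneg hx hz] at r1 r2
      have r1' : z 1 ≤ x 1 := r1
      have r2' : z 2 ≤ x 2 := r2
      linarith
  rcases rel_of_tendsto hx hz lx lz 0 with ⟨-, r1, r2⟩ | ⟨-, r1, r2⟩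
  · rw [dl_nonpos hx hz] at r1 r2
    exact key hx hz lx lz h r1 r2
  · rw [dl_nonneg hx hz] at r1 r2
    have := key hz hx lz lx h.symm r1 r2
    exact ⟨this.1.symm, this.2.symm⟩

/-- the stable set of the equilibrium -/
def W : Set (ℝ × ℝ × ℝ) := {p | p ∈ Pos ∧ Tendsto (term p) atTop (𝓝 (1/2))}

lemma W_ext {p q : ℝ × ℝ × ℝ} (hp : p ∈ W) (hq : q ∈ W) (h : p.1 = q.1) : p = q := by
  obtain ⟨h1, h2⟩ := uniq (sol hp.1) (sol hq.1) hp.2 hq.2 h
  exact Prod.ext h (Prod.ext h1 h2)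

lemma term_step (p : ℝ × ℝ × ℝ) (n : ℕ) : term (step p) n = term p (n + 1) := by
  unfold term
  rw [Function.iterate_succ_apply]

lemma W_step {p : ℝ × ℝ × ℝ} (hp : p ∈ W) : step p ∈ W := by
  refine ⟨step_pos hp.1, ?_⟩
  have := hp.2.comp (tendsto_add_atTop_nat 1)
  refine this.congr (fun n => ?_)
  exact (term_step p n).symm

lemma W_S {p : ℝ × ℝ × ℝ} (hp : p ∈ W) : S p ∈ W := by
  refine ⟨S_pos hp.1, ?_⟩
  rw [← tendsto_add_atTop_iff_nat 1]
  refine hp.2.congr (fun n => ?_)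
  rw [← term_step, step_S hp.1]

lemma W_mono {p q : ℝ × ℝ × ℝ} (hp : p ∈ W) (hq : q ∈ W) (h : p.1 < q.1) : p.2.1 < q.2.1 := by
  have h1 : p.2.1 ≤ q.2.1 := by
    rcases rel_of_tendsto (sol hp.1) (sol hq.1) hp.2 hq.2 0 with ⟨-, r1, -⟩ | ⟨r0, -, -⟩
    · rw [dl_nonpos (sol hp.1) (sol hq.1)] at r1
      exact r1
    · rw [dl_nonneg (sol hp.1) (sol hq.1)] at r0
      exact absurd r0 (not_le.2 h)
  refine lt_of_le_of_ne h1 (fun he => ?_)
  have h2 := W_ext (W_step hp) (W_step hq) he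
  have h3 : p.2.2 = q.2.2 := congrArg (fun t : ℝ × ℝ × ℝ => t.2.1) h2
  have h4 : term p 3 = term q 3 := by
    have e1 : term p 3 = (step p).2.2 := by
      rw [show (3 : ℕ) = 1 + 2 by norm_num, ← iter2 p 1]
      rfl
    have e2 : term q 3 = (step q).2.2 := by
      rw [show (3 : ℕ) = 1 + 2 by norm_num, ← iter2 q 1]
      rfl
    rw [e1, e2, h2]
  have b1 : term p 0 = term p 3 * (1 + term p 2 + term p 1) / 2 := (sol hp.1).back 0
  have b2 : term q 0 = term q 3 * (1 + term q 2 + term q 1) / 2 := (sol hq.1).back 0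
  have h5 : term p 2 = term q 2 := h3
  have h6 : term p 1 = term q 1 := he
  have : term p 0 = term q 0 := by rw [b1, b2, h4, h5, h6]
  exact absurd this h.ne

/-- the stable set of the equilibrium is a curve -/
theorem curve : ∃ φ : ℝ → ℝ, StrictMonoOn φ (Ioi 0) ∧ ContinuousOn φ (Ioi 0) ∧
    BijOn φ (Ioi 0) (Ioi 0) ∧
    (∀ p : ℝ × ℝ × ℝ, (p ∈ Pos ∧ Tendsto (term p) atTop (𝓝 (1/2))) ↔
      0 < p.1 ∧ p.2.1 = φ p.1 ∧ p.2.2 = φ (φ p.1)) ∧
    (∀ r, 1/2 < r → 1/2 < φ r ∧ φ r < r) ∧ (∀ r, 0 < r → r < 1/2 → r < φ r ∧ φ r < 1/2) := by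
  choose! P hP using fun (r : ℝ) (hr : 0 < r) => mono_half hr
  have hW : ∀ r, 0 < r → P r ∈ W := fun r hr => ⟨(hP r hr).1, (hP r hr).2.2.1⟩
  have h1 : ∀ r, 0 < r → (P r).1 = r := fun r hr => (hP r hr).2.1
  have hpos : ∀ r, 0 < r → 0 < (P r).2.1 := fun r hr => (hP r hr).1.2.1
  have f1 : ∀ p, p ∈ W → p.2.1 = (P p.1).2.1 := by
    intro p hp
    have := W_ext hp (hW p.1 hp.1.1) (h1 p.1 hp.1.1).symm
    rw [← this]
  have f2 : ∀ p, p ∈ W → p.2.2 = (P (P p.1).2.1).2.1 := by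
    intro p hp
    have := f1 (step p) (W_step hp)
    rw [← f1 p hp]
    exact this
  have hmono : StrictMonoOn (fun r => (P r).2.1) (Ioi 0) := by
    intro r hr s hs hrs
    exact W_mono (hW r hr) (hW s hs) (by rw [h1 r hr, h1 s hs]; exact hrs)
  have hmaps : MapsTo (fun r => (P r).2.1) (Ioi 0) (Ioi 0) := fun r hr => hpos r hr
  have hsurj : SurjOn (fun r => (P r).2.1) (Ioi 0) (Ioi 0) := by
    intro s hs
    have h := W_S (hW s hs)
    refine ⟨(S (P s)).1, h.1.1, ?_⟩
    show (P (S (P s)).1).2.1 = s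
    rw [← f1 _ h]
    exact h1 s hs
  have hhalf : (P (1/2)).2.1 = 1/2 := by
    have h := hP (1/2) (by norm_num)
    have a1 : term (P (1/2)) 1 ≤ term (P (1/2)) 0 := h.2.2.2.1 le_rfl (by norm_num)
    have a2 : term (P (1/2)) 0 ≤ term (P (1/2)) 1 := h.2.2.2.2 le_rfl (by norm_num)
    have a3 : term (P (1/2)) 0 = 1/2 := h.2.1
    have a4 : term (P (1/2)) 1 = (P (1/2)).2.1 := rfl
    rw [← a4]
    linarith
  have hfix : ∀ r, 0 < r → (P r).2.1 = r → r = 1/2 := by
    intro r hr he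
    have g2 := f2 (P r) (hW r hr)
    rw [h1 r hr, he, he] at g2
    have g3 := f2 (step (P r)) (W_step (hW r hr))
    have e1 : (step (P r)).1 = r := he
    rw [e1, he, he] at g3
    have g4 : 2 * (P r).1 / (1 + (P r).2.2 + (P r).2.1) = r := g3
    rw [g2, he, h1 r hr, div_eq_iff (by positivity)] at g4
    have g5 : r * (1 - 2 * r) = 0 := by linarith
    rcases mul_eq_zero.1 g5 with h | h
    · exact absurd h hr.ne'
    · linarith
  refine ⟨fun r => (P r).2.1, hmono, ?_, ⟨hmaps, hmono.injOn, hsurj⟩, ?_, ?_, ?_⟩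
  · intro a ha
    apply ContinuousAt.continuousWithinAt
    apply continuousAt_of_monotoneOn_of_image_mem_nhds hmono.monotoneOn (Ioi_mem_nhds ha)
    rw [hsurj.image_eq_of_mapsTo hmaps]
    exact Ioi_mem_nhds (hpos a ha)
  · intro p
    constructor
    · intro hp
      exact ⟨hp.1.1, f1 p hp, f2 p hp⟩
    · rintro ⟨hp0, hp1, hp2⟩
      have hw := hW p.1 hp0
      have e : P p.1 = p := by
        refine Prod.ext (h1 p.1 hp0) (Prod.ext hp1.symm ?_)
        have := f2 (P p.1) hw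
        rw [h1 p.1 hp0] at this
        rw [this, hp2]
      rw [e] at hw
      exact hw
  · intro r hr
    have hr0 : 0 < r := by linarith
    have a1 : (P (1/2)).2.1 < (P r).2.1 := hmono (show (0 : ℝ) < 1/2 by norm_num) hr0 hr
    rw [hhalf] at a1
    refine ⟨a1, lt_of_le_of_ne ?_ (fun he => ?_)⟩
    · have a2 : term (P r) 1 ≤ term (P r) 0 := (hP r hr0).2.2.2.1 hr.le (by norm_num)
      have a3 : term (P r) 0 = r := h1 r hr0
      rw [a3] at a2
      exact a2
    · have := hfix r hr0 he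
      linarith
  · intro r hr0 hr
    have a1 : (P r).2.1 < (P (1/2)).2.1 := hmono hr0 (show (0 : ℝ) < 1/2 by norm_num) hr
    rw [hhalf] at a1
    refine ⟨lt_of_le_of_ne ?_ (fun he => ?_), a1⟩
    · have a2 : term (P r) 0 ≤ term (P r) 1 := (hP r hr0).2.2.2.2 hr.le (by norm_num)
      have a3 : term (P r) 0 = r := h1 r hr0
      rw [a3] at a2
      exact a2
    · have := hfix r hr0 he.symm
      linarith

end Pool.Agent.T2H59.RR
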