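import Pool.Agent.T2H59.RR.R10

open Filter Topology Set MeasureTheory
open scoped ENNReal

namespace Pool.Agent.T2H59.RR

/-- a solution in `B` which is near the three-cycle with `G` small remains there -/
lemma persist {x : ℕ → ℝ} (h : Sol x) (hG : ∀ n, 0 ≤ GG x n) {m : ℕ} (g : GG x m < 1/1000)
    (a : x m < 1/100) (b : |x (m + 1) - 1| < 1/10) (c : |x (m + 2) - 1| < 1/10) :
    GG x (m + 3) < 1/1000 ∧ x (m + 3) < 1/100 ∧ |x (m + 4) - 1| < 1/10 ∧
      |x (m + 5) - 1| < 1/10 := by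
  have p0 := h.pos m
  have p3 := h.pos (m + 3)
  have p4 := h.pos (m + 4)
  have p5 := h.pos (m + 5)
  have p6 := h.pos (m + 6)
  have e3 : x (m + 3) = 2 * x m / (1 + x (m + 2) + x (m + 1)) := h.eqn m
  have e4 : x (m + 4) = 2 * x (m + 1) / (1 + x (m + 3) + x (m + 2)) := h.eqn (m + 1)
  have e5 : x (m + 5) = 2 * x (m + 2) / (1 + x (m + 4) + x (m + 3)) := h.eqn (m + 2)
  have e6 : x (m + 6) = 2 * x (m + 3) / (1 + x (m + 5) + x (m + 4)) := h.eqn (m + 3)
  have s2 : GG x (m + 3) = GG x (m + 2) - x (m + 2) * (x (m + 3) + x (m + 4) - 1) ^ 2 /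
      (1 + x (m + 4) + x (m + 3)) := h.step (m + 2)
  have s4 : GG x (m + 5) = GG x (m + 4) - x (m + 4) * (x (m + 5) + x (m + 6) - 1) ^ 2 /
      (1 + x (m + 6) + x (m + 5)) := h.step (m + 4)
  have g2 : GG x (m + 2) ≤ GG x m := h.anti (by omega)
  have g3 : GG x (m + 3) ≤ GG x m := h.anti (by omega)
  have g4 : GG x (m + 4) ≤ GG x m := h.anti (by omega)
  have n3 := hG (m + 3)
  have n5 := hG (m + 5)
  rw [abs_lt] at b c
  set X := x m
  set Y := x (m + 1)
  set Z := x (m + 2)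
  set X' := x (m + 3)
  set Y' := x (m + 4)
  set Z' := x (m + 5)
  set X'' := x (m + 6)
  have hX' : X' < 1/100 := by
    rw [e3, div_lt_iff₀ (by linarith)]
    nlinarith
  have hY'u : Y' < 117/100 := by
    rw [e4, div_lt_iff₀ (by linarith)]
    nlinarith
  have d2 : Z * (X' + Y' - 1) ^ 2 / (1 + Y' + X') < 1/1000 := by linarith
  rw [div_lt_iff₀ (by linarith)] at d2
  have q2 : (X' + Y' - 1) ^ 2 < (1/20) ^ 2 := by nlinarith [sq_nonneg (X' + Y' - 1)]
  have r2 := abs_lt.1 (abs_lt_of_sq_lt_sq q2 (by norm_num))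
  have hZ'u : Z' < 117/100 := by
    rw [e5, div_lt_iff₀ (by linarith)]
    nlinarith
  have hX'' : X'' < 11/1000 := by
    rw [e6, div_lt_iff₀ (by linarith)]
    nlinarith
  have d4 : Y' * (Z' + X'' - 1) ^ 2 / (1 + X'' + Z') < 1/1000 := by linarith
  rw [div_lt_iff₀ (by linarith)] at d4
  have q4 : (Z' + X'' - 1) ^ 2 < (1/20) ^ 2 := by nlinarith [sq_nonneg (Z' + X'' - 1)]
  have r4 := abs_lt.1 (abs_lt_of_sq_lt_sq q4 (by norm_num))
  refine ⟨by linarith, hX', ?_, ?_⟩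
  · rw [abs_lt]
    constructor <;> linarith
  · rw [abs_lt]
    constructor <;> linarith

/-- the condition at time `m` -/
def Close (x : ℕ → ℝ) (m : ℕ) : Prop :=
  GG x m < 1/1000 ∧ x m < 1/100 ∧ |x (m + 1) - 1| < 1/10 ∧ |x (m + 2) - 1| < 1/10

lemma close_all {x : ℕ → ℝ} (h : Sol x) (hG : ∀ n, 0 ≤ GG x n) {m : ℕ} (hc : Close x m)
    (j : ℕ) : Close x (m + 3 * j) := by
  induction j with
  | zero => exact hc
  | succ j ih =>
    have := persist h hG ih.1 ih.2.1 ih.2.2.1 ih.2.2.2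
    rw [show m + 3 * (j + 1) = m + 3 * j + 3 by ring]
    exact this

lemma cyc_ne {x : ℕ → ℝ} {i j : ℕ} (hj : j < 3) (hij : i < j) (h : Cyc x i) (h' : Cyc x j) :
    False := by
  have hc : j = i + 1 ∨ j = i + 2 := by omega
  rcases hc with rfl | rfl
  · have h1 : Tendsto (fun k => x (3 * k + i + 1)) atTop (𝓝 0) := h'.1
    exact absurd (tendsto_nhds_unique h1 h.2.1) (by norm_num)
  · have h1 : Tendsto (fun k => x (3 * k + i + 2)) atTop (𝓝 0) := h'.1
    exact absurd (tendsto_nhds_unique h1 h.2.2) (by norm_num)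

lemma cyc_of_close {x : ℕ → ℝ} (h : Sol x) (hG : ∀ n, 0 ≤ GG x n) (hM : ∃ M : ℝ, ∀ n, x n ≤ M)
    {i k : ℕ} (hi : i < 3) (hc : Close x (3 * k + i)) : Cyc x i := by
  have hall : ∀ j, k ≤ j → Close x (3 * j + i) := by
    intro j hj
    have := close_all h hG hc (j - k)
    rwa [show 3 * k + i + 3 * (j - k) = 3 * j + i by omega] at this
  obtain ⟨M, hM⟩ := hM
  rcases h.conv hM hG with h1 | ⟨⟨i', hi', hcyc⟩, -⟩
  · exfalso
    have h2 : Tendsto (fun j => x (3 * j + i)) atTop (𝓝 (1/2)) := by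
      apply h1.1.comp
      apply tendsto_atTop_mono (f := fun j : ℕ => j) (fun j => by show j ≤ 3 * j + i; omega)
      exact tendsto_id
    have h3 : ∀ᶠ j in atTop, x (3 * j + i) ≤ 1/100 := by
      filter_upwards [eventually_ge_atTop k] with j hj
      exact (hall j hj).2.1.le
    have := le_of_tendsto h2 h3
    norm_num at this
  · have b1 : ∀ᶠ j in atTop, 9/10 ≤ x (3 * j + i + 1) := by
      filter_upwards [eventually_ge_atTop k] with j hj
      have := (abs_lt.1 (hall j hj).2.2.1).1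
      linarith
    have b2 : ∀ᶠ j in atTop, 9/10 ≤ x (3 * j + i + 2) := by
      filter_upwards [eventually_ge_atTop k] with j hj
      have := (abs_lt.1 (hall j hj).2.2.2).1
      linarith
    have hcases : i' = i ∨ i' = i + 1 ∨ i' = i + 2 ∨ i' + 3 = i + 1 ∨ i' + 3 = i + 2 := by omega
    have t0 := hcyc.1
    have t1 : Tendsto (fun j => x (3 * (j + 1) + i')) atTop (𝓝 0) :=
      t0.comp (tendsto_add_atTop_nat 1)
    rcases hcases with rfl | rfl | rfl | he | he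
    · exact hcyc
    · exfalso
      have := ge_of_tendsto t0 b1
      norm_num at this
    · exfalso
      have := ge_of_tendsto t0 b2
      norm_num at this
    · exfalso
      have t2 : Tendsto (fun j => x (3 * j + i + 1)) atTop (𝓝 0) :=
        t1.congr (fun j => by rw [show 3 * (j + 1) + i' = 3 * j + i + 1 by omega])
      have := ge_of_tendsto t2 b1
      norm_num at this
    · exfalso
      have t2 : Tendsto (fun j => x (3 * j + i + 2)) atTop (𝓝 0) :=
        t1.congr (fun j => by rw [show 3 * (j + 1) + i' = 3 * j + i + 2 by omega])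
      have := ge_of_tendsto t2 b2
      norm_num at this

lemma close_of_cyc {x : ℕ → ℝ} (h : Sol x) (hG : ∀ n, 0 ≤ GG x n) (hM : ∃ M : ℝ, ∀ n, x n ≤ M)
    {i : ℕ} (hcyc : Cyc x i) : ∃ k, Close x (3 * k + i) := by
  obtain ⟨M, hM⟩ := hM
  have hlin : Tendsto (fun j : ℕ => 3 * j + i) atTop atTop :=
    tendsto_atTop_mono (f := fun j : ℕ => j) (fun j => by show j ≤ 3 * j + i; omega) tendsto_id
  rcases h.conv hM hG with h1 | ⟨-, h1⟩
  · exfalso
    exact absurd (tendsto_nhds_unique (h1.1.comp hlin) hcyc.1) (by norm_num)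
  · have c0 := (h1.comp hlin).eventually (eventually_lt_nhds (show (0 : ℝ) < 1/1000 by norm_num))
    have c1 := hcyc.1.eventually (eventually_lt_nhds (show (0 : ℝ) < 1/100 by norm_num))
    have c2 := Metric.tendsto_nhds.1 hcyc.2.1 (1/10) (by norm_num)
    have c3 := Metric.tendsto_nhds.1 hcyc.2.2 (1/10) (by norm_num)
    obtain ⟨k, k0, k1, k2, k3⟩ := (c0.and (c1.and (c2.and c3))).exists
    rw [Real.dist_eq] at k2 k3
    exact ⟨k, k0, k1, k2, k3⟩

lemma close_open (m : ℕ) : IsOpen {p : ℝ × ℝ × ℝ | p ∈ Pos ∧ Close (term p) m} := by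
  have e : {p : ℝ × ℝ × ℝ | p ∈ Pos ∧ Close (term p) m} =
      ((Pos ∩ (fun p => GG (term p) m) ⁻¹' Iio (1/1000)) ∩
        (Pos ∩ (fun p => term p m) ⁻¹' Iio (1/100))) ∩
      ((Pos ∩ (fun p => |term p (m + 1) - 1|) ⁻¹' Iio (1/10)) ∩
        (Pos ∩ (fun p => |term p (m + 2) - 1|) ⁻¹' Iio (1/10))) := by
    ext p
    simp only [Close, mem_inter_iff, mem_preimage, mem_Iio, mem_ofPred_eq]
    tauto
  rw [e]
  have a1 : ContinuousOn (fun p : ℝ × ℝ × ℝ => |term p (m + 1) - 1|) Pos :=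
    ((term_cont (m + 1)).sub continuousOn_const).abs
  have a2 : ContinuousOn (fun p : ℝ × ℝ × ℝ => |term p (m + 2) - 1|) Pos :=
    ((term_cont (m + 2)).sub continuousOn_const).abs
  exact (((GG_cont m).isOpen_inter_preimage Pos_open isOpen_Iio).inter
    ((term_cont m).isOpen_inter_preimage Pos_open isOpen_Iio)).inter
    ((a1.isOpen_inter_preimage Pos_open isOpen_Iio).inter
      (a2.isOpen_inter_preimage Pos_open isOpen_Iio))

lemma cyc_step {p : ℝ × ℝ × ℝ} {i : ℕ} (h : Cyc (term p) (i + 1)) : Cyc (term (step p)) i := by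
  obtain ⟨h0, h1, h2⟩ := h
  refine ⟨h0.congr (fun k => ?_), h1.congr (fun k => ?_), h2.congr (fun k => ?_)⟩
  · rw [term_step]; rfl
  · rw [term_step]; rfl
  · rw [term_step]; rfl

lemma cyc_wrap {p : ℝ × ℝ × ℝ} (h : Cyc (term p) 0) : Cyc (term (step p)) 2 := by
  apply cyc_step
  obtain ⟨h0, h1, h2⟩ := h
  exact ⟨h0.comp (tendsto_add_atTop_nat 1), h1.comp (tendsto_add_atTop_nat 1),
    h2.comp (tendsto_add_atTop_nat 1)⟩

lemma B_step {p : ℝ × ℝ × ℝ} (hp : p ∈ B) : step p ∈ B := by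
  obtain ⟨h1, M, hM⟩ := hp
  exact ⟨step_pos h1, M, fun n => by rw [term_step]; exact hM _⟩

lemma cyc_nonempty : ∀ i, i < 3 → ∃ p ∈ B, Cyc (term p) i := by
  obtain ⟨s, -, hB, i, hi, hc⟩ := seg (a := 1/8) (by norm_num) (by norm_num)
  have down : ∀ i, (∃ p ∈ B, Cyc (term p) (i + 1)) → ∃ p ∈ B, Cyc (term p) i := by
    rintro i ⟨p, hp, h⟩
    exact ⟨step p, B_step hp, cyc_step h⟩
  have wrap : (∃ p ∈ B, Cyc (term p) 0) → ∃ p ∈ B, Cyc (term p) 2 := by
    rintro ⟨p, hp, h⟩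
    exact ⟨step p, B_step hp, cyc_wrap h⟩
  have h0 : ∃ p ∈ B, Cyc (term p) 0 := by
    interval_cases i
    · exact ⟨_, hB, hc⟩
    · exact down 0 ⟨_, hB, hc⟩
    · exact down 0 (down 1 ⟨_, hB, hc⟩)
  intro j hj
  interval_cases j
  · exact h0
  · exact down 1 (wrap h0)
  · exact wrap h0

/-- the parts of `B` of the three-cycle are nonempty, disjoint and relatively open in `B` -/
theorem pieces : (∀ i, i < 3 → (∃ p ∈ B, Cyc (term p) i) ∧
      ∃ O : Set (ℝ × ℝ × ℝ), IsOpen O ∧ {p | p ∈ B ∧ Cyc (term p) i} = B ∩ O) ∧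
    ∀ i j, i < 3 → j < 3 → i ≠ j → ∀ p, ¬ (Cyc (term p) i ∧ Cyc (term p) j) := by
  refine ⟨fun i hi => ⟨cyc_nonempty i hi, ⋃ k : ℕ, {p | p ∈ Pos ∧ Close (term p) (3 * k + i)},
    isOpen_iUnion fun k => close_open _, ?_⟩, ?_⟩
  · ext p
    constructor
    · rintro ⟨hp, hc⟩
      have hc' : Cyc (term p) i := hc
      obtain ⟨k, hk⟩ := close_of_cyc (sol hp.1) ((B_iff hp.1).1 hp) hp.2 hc'
      exact ⟨hp, mem_iUnion.2 ⟨k, hp.1, hk⟩⟩
    · rintro ⟨hp, hk⟩
      obtain ⟨k, -, hk⟩ := mem_iUnion.1 hk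
      exact ⟨hp, cyc_of_close (sol hp.1) ((B_iff hp.1).1 hp) hp.2 hi hk⟩
  · rintro i j hi hj hij p ⟨h1, h2⟩
    rcases lt_or_gt_of_ne hij with h | h
    · exact cyc_ne hj h h1 h2
    · exact cyc_ne hi h h2 h1

end Pool.Agent.T2H59.RR
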