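import Pool.Agent.T2H59.RR.R1

open Filter Topology Set

namespace Pool.Agent.T2H59.RR

lemma tendsto_of_sq {c : ℕ → ℝ} (h : Tendsto (fun k => c k ^ 2) atTop (𝓝 0)) :
    Tendsto c atTop (𝓝 0) := by
  rw [tendsto_zero_iff_abs_tendsto_zero]
  have h2 := (Real.continuous_sqrt.tendsto 0).comp h
  rw [Real.sqrt_zero] at h2
  refine h2.congr (fun k => ?_)
  show Real.sqrt (c k ^ 2) = |c k|
  exact Real.sqrt_sq_eq_abs _

lemma two_limits {c : ℕ → ℝ} {t : ℝ} (h1 : Tendsto (fun k => c (k + 1) - c k) atTop (𝓝 0))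
    (h2 : Tendsto (fun k => c k * (t - c k)) atTop (𝓝 0)) :
    Tendsto c atTop (𝓝 0) ∨ Tendsto c atTop (𝓝 t) := by
  by_cases ht : t = 0
  · left
    apply tendsto_of_sq
    have := h2.neg
    rw [neg_zero] at this
    refine this.congr (fun k => ?_)
    rw [ht]; ring
  · have htp : 0 < |t| := abs_pos.2 ht
    set d := |t| / 3 with hd
    have hd0 : 0 < d := by positivity
    have e1 : ∀ᶠ k in atTop, |c (k + 1) - c k| < d := by
      have := h1.abs
      rw [abs_zero] at this
      exact this.eventually (gt_mem_nhds hd0)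
    have e2 : ∀ᶠ k in atTop, |c k * (t - c k)| < d * d := by
      have := h2.abs
      rw [abs_zero] at this
      exact this.eventually (gt_mem_nhds (by positivity))
    obtain ⟨K, hK⟩ := Filter.eventually_atTop.1 (e1.and e2)
    have claim : ∀ k, K ≤ k → |c k| < d ∨ |t - c k| < d := by
      intro k hk
      by_contra hcon
      push Not at hcon
      have := (hK k hk).2
      rw [abs_mul] at this
      have := mul_le_mul hcon.1 hcon.2 hd0.le (abs_nonneg _)
      linarith
    have tri : ∀ k, 3 * d ≤ |c k| + |t - c k| := by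
      intro k
      have := abs_add_le (c k) (t - c k)
      rw [add_sub_cancel] at this
      linarith
    have habs : Tendsto (fun k => |c k * (t - c k)|) atTop (𝓝 0) := by
      have := h2.abs
      rwa [abs_zero] at this
    by_cases hA : ∃ k0, K ≤ k0 ∧ |c k0| < d
    · obtain ⟨k0, hk0, hck⟩ := hA
      have hall : ∀ k, k0 ≤ k → |c k| < d := by
        intro k hk
        induction k, hk using Nat.le_induction with
        | base => exact hck
        | succ k hk ih =>
          rcases claim (k + 1) (by omega) with h | h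
          · exact h
          · exfalso
            have s1 := (hK k (by omega)).1
            have s2 := abs_sub_abs_le_abs_sub (c (k + 1)) (c k)
            have s3 := tri (k + 1)
            linarith
      left
      rw [tendsto_zero_iff_abs_tendsto_zero]
      have hb : Tendsto (fun k => |c k * (t - c k)| / d) atTop (𝓝 0) := by
        have := habs.div_const d
        rwa [zero_div] at this
      refine tendsto_of_tendsto_of_tendsto_of_le_of_le' tendsto_const_nhds hb
        (Eventually.of_forall fun k => abs_nonneg _) ?_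
      filter_upwards [eventually_ge_atTop k0] with k hk
      show |c k| ≤ _
      rw [le_div_iff₀ hd0, abs_mul]
      apply mul_le_mul_of_nonneg_left _ (abs_nonneg _)
      have := tri k
      have := hall k hk
      linarith
    · push Not at hA
      right
      rw [← tendsto_sub_nhds_zero_iff, tendsto_zero_iff_abs_tendsto_zero]
      have hb : Tendsto (fun k => |c k * (t - c k)| / d) atTop (𝓝 0) := by
        have := habs.div_const d
        rwa [zero_div] at this
      refine tendsto_of_tendsto_of_tendsto_of_le_of_le' tendsto_const_nhds hb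
        (Eventually.of_forall fun k => abs_nonneg _) ?_
      filter_upwards [eventually_ge_atTop K] with k hk
      show |c k - t| ≤ _
      rw [le_div_iff₀ hd0, abs_mul, abs_sub_comm, mul_comm]
      apply mul_le_mul_of_nonneg_right (hA k hk) (abs_nonneg _)

lemma tendsto_of_mod3 {x : ℕ → ℝ} {l : ℝ} (h0 : Tendsto (fun k => x (3 * k)) atTop (𝓝 l))
    (h1 : Tendsto (fun k => x (3 * k + 1)) atTop (𝓝 l))
    (h2 : Tendsto (fun k => x (3 * k + 2)) atTop (𝓝 l)) : Tendsto x atTop (𝓝 l) := by
  rw [tendsto_def] at *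
  intro s hs
  have a0 := h0 s hs
  have a1 := h1 s hs
  have a2 := h2 s hs
  rw [mem_atTop_sets] at *
  obtain ⟨K0, b0⟩ := a0
  obtain ⟨K1, b1⟩ := a1
  obtain ⟨K2, b2⟩ := a2
  refine ⟨3 * (K0 + K1 + K2) + 3, fun n hn => ?_⟩
  have hn3 : n = 3 * (n / 3) + n % 3 := (Nat.div_add_mod n 3).symm
  have hlt : n % 3 < 3 := Nat.mod_lt _ (by norm_num)
  have hq : K0 + K1 + K2 ≤ n / 3 := by omega
  show x n ∈ s
  rw [hn3]
  interval_cases hm : n % 3
  · exact b0 (n / 3) (by omega)
  · exact b1 (n / 3) (by omega)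
  · exact b2 (n / 3) (by omega)

variable {x : ℕ → ℝ}

lemma Sol.conv (h : Sol x) {M : ℝ} (hM : ∀ n, x n ≤ M) (hG : ∀ n, 0 ≤ GG x n) :
    (Tendsto x atTop (𝓝 (1/2)) ∧ Tendsto (GG x) atTop (𝓝 (1/4))) ∨
      ((∃ i, i < 3 ∧ Cyc x i) ∧ Tendsto (GG x) atTop (𝓝 0)) := by
  have hM0 : 0 < M := lt_of_lt_of_le (h.pos 0) (hM 0)
  obtain ⟨L, hL⟩ : ∃ L, Tendsto (GG x) atTop (𝓝 L) :=
    ⟨_, tendsto_atTop_ciInf h.anti ⟨0, by rintro _ ⟨n, rfl⟩; exact hG n⟩⟩
  have hdiff : Tendsto (fun n => GG x n - GG x (n + 1)) atTop (𝓝 0) := by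
    have := hL.sub ((tendsto_add_atTop_iff_nat 1).2 hL)
    rwa [sub_self] at this
  have hD2 : Tendsto (fun n => x n * (x (n + 1) + x (n + 2) - 1) ^ 2) atTop (𝓝 0) := by
    have hb : Tendsto (fun n => (GG x n - GG x (n + 1)) * (1 + 2 * M)) atTop (𝓝 0) := by
      have := hdiff.mul_const (1 + 2 * M)
      rwa [zero_mul] at this
    refine tendsto_of_tendsto_of_tendsto_of_le_of_le tendsto_const_nhds hb ?_ ?_
    · intro n
      have := h.pos n
      show (0:ℝ) ≤ _
      positivity
    · intro n
      have h1 := h.pos n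
      have h2 := h.pos (n + 1)
      have h3 := h.pos (n + 2)
      have h4 : 0 ≤ x n * (x (n + 1) + x (n + 2) - 1) ^ 2 := by positivity
      show x n * (x (n + 1) + x (n + 2) - 1) ^ 2 ≤ (GG x n - GG x (n + 1)) * (1 + 2 * M)
      rw [h.step n, sub_sub_cancel, div_mul_eq_mul_div, le_div_iff₀ (by linarith)]
      apply mul_le_mul_of_nonneg_left _ h4
      linarith [hM (n + 1), hM (n + 2)]
  have hD : Tendsto (fun n => x n * (x (n + 1) + x (n + 2) - 1)) atTop (𝓝 0) := by
    apply tendsto_of_sq
    have hb : Tendsto (fun n => M * (x n * (x (n + 1) + x (n + 2) - 1) ^ 2)) atTop (𝓝 0) := by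
      have := hD2.const_mul M
      rwa [mul_zero] at this
    refine tendsto_of_tendsto_of_tendsto_of_le_of_le tendsto_const_nhds hb
      (fun n => sq_nonneg _) ?_
    intro n
    show (x n * (x (n + 1) + x (n + 2) - 1)) ^ 2 ≤ M * (x n * (x (n + 1) + x (n + 2) - 1) ^ 2)
    have h1 := h.pos n
    have e : (x n * (x (n + 1) + x (n + 2) - 1)) ^ 2 =
        x n * (x n * (x (n + 1) + x (n + 2) - 1) ^ 2) := by ring
    rw [e]
    exact mul_le_mul_of_nonneg_right (hM n) (by positivity)
  have hstep : Tendsto (fun n => x (n + 3) - x n) atTop (𝓝 0) := by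
    rw [tendsto_zero_iff_abs_tendsto_zero]
    have hb := hD.abs
    rw [abs_zero] at hb
    refine tendsto_of_tendsto_of_tendsto_of_le_of_le tendsto_const_nhds hb
      (fun n => abs_nonneg _) ?_
    intro n
    show |x (n + 3) - x n| ≤ |x n * (x (n + 1) + x (n + 2) - 1)|
    have h1 := h.pos n
    have h2 := h.pos (n + 1)
    have h3 := h.pos (n + 2)
    have e : x (n + 3) - x n = -(x n * (x (n + 1) + x (n + 2) - 1)) /
        (1 + x (n + 2) + x (n + 1)) := by
      rw [h.eqn n]
      field_simp
      ring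
    rw [e, abs_div, abs_neg]
    apply div_le_self (abs_nonneg _)
    rw [abs_of_pos (by linarith)]
    linarith
  have bmul : ∀ {u : ℕ → ℝ} (m : ℕ), Tendsto u atTop (𝓝 0) →
      Tendsto (fun n => x (n + m) * u n) atTop (𝓝 0) := by
    intro u m hu
    rw [tendsto_zero_iff_abs_tendsto_zero] at hu ⊢
    have hb : Tendsto (fun n => M * |u n|) atTop (𝓝 0) := by
      have := hu.const_mul M
      rwa [mul_zero] at this
    refine tendsto_of_tendsto_of_tendsto_of_le_of_le tendsto_const_nhds hb
      (fun n => abs_nonneg _) ?_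
    intro n
    show |x (n + m) * u n| ≤ M * |u n|
    rw [abs_mul, abs_of_pos (h.pos _)]
    exact mul_le_mul_of_nonneg_right (hM _) (abs_nonneg _)
  have f2 : Tendsto (fun n => x (n + 1) * (x (n + 2) + x n - 1)) atTop (𝓝 0) := by
    have a1 := (tendsto_add_atTop_iff_nat 1).2 hD
    have a2 := bmul 1 hstep
    have := a1.sub a2
    rw [sub_zero] at this
    refine this.congr (fun n => ?_)
    rw [show n + 1 + 1 = n + 2 by ring, show n + 1 + 2 = n + 3 by ring]
    ring
  have f3 : Tendsto (fun n => x (n + 2) * (x n + x (n + 1) - 1)) atTop (𝓝 0) := by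
    have a1 := (tendsto_add_atTop_iff_nat 2).2 hD
    have a0 : Tendsto (fun n => (x (n + 3) - x n) + (x (n + 1 + 3) - x (n + 1))) atTop (𝓝 0) := by
      have := hstep.add ((tendsto_add_atTop_iff_nat 1).2 hstep)
      rwa [add_zero] at this
    have a2 := bmul 2 a0
    have := a1.sub a2
    rw [sub_zero] at this
    refine this.congr (fun n => ?_)
    rw [show n + 2 + 1 = n + 3 by ring, show n + 2 + 2 = n + 4 by ring,
      show n + 1 + 3 = n + 4 by ring]
    ring
  have hs : Tendsto (fun n => x n + x (n + 1) + x (n + 2)) atTop (𝓝 (2 - 2 * L)) := by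
    have a := ((tendsto_const_nhds (x := (2:ℝ))).sub (hL.const_mul 2)).add ((hD.add f2).add f3)
    rw [add_zero, add_zero, add_zero] at a
    refine a.congr (fun n => ?_)
    unfold GG G
    ring
  set t := 1 - 2 * L with ht
  have hprod : Tendsto (fun n => x n * (t - x n)) atTop (𝓝 0) := by
    have a : Tendsto (fun n => t + 1 - (x n + x (n + 1) + x (n + 2))) atTop (𝓝 0) := by
      have := (tendsto_const_nhds (x := t + 1)).sub hs
      rwa [show t + 1 - (2 - 2 * L) = 0 by rw [ht]; ring] at this
    have b := bmul 0 a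
    have := hD.add b
    rw [add_zero] at this
    refine this.congr (fun n => ?_)
    simp only [add_zero]
    ring
  have sub3 : ∀ i : ℕ, Tendsto (fun k : ℕ => 3 * k + i) atTop atTop := by
    intro i
    apply tendsto_atTop_mono (fun k => (by omega : k ≤ 3 * k + i)) tendsto_id
  have lim : ∀ i : ℕ, Tendsto (fun k => x (3 * k + i)) atTop (𝓝 0) ∨
      Tendsto (fun k => x (3 * k + i)) atTop (𝓝 t) := by
    intro i
    apply two_limits
    · refine (hstep.comp (sub3 i)).congr (fun k => ?_)
      simp only [Function.comp_apply]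
      rw [show 3 * (k + 1) + i = 3 * k + i + 3 by ring]
    · exact hprod.comp (sub3 i)
  have hsum : Tendsto (fun k => x (3 * k) + x (3 * k + 1) + x (3 * k + 2)) atTop (𝓝 (t + 1)) := by
    have := hs.comp (sub3 0)
    rw [show 2 - 2 * L = t + 1 by rw [ht]; ring] at this
    exact this
  have l0 := lim 0
  have l1 := lim 1
  have l2 := lim 2
  simp only [add_zero] at l0
  have nextc : ∀ {i : ℕ} {l : ℝ}, Tendsto (fun k => x (3 * k + i)) atTop (𝓝 l) →
      Tendsto (fun k => x (3 * k + (i + 3))) atTop (𝓝 l) := by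
    intro i l hl
    have := (tendsto_add_atTop_iff_nat 1).2 hl
    refine this.congr (fun k => ?_)
    rw [show 3 * (k + 1) + i = 3 * k + (i + 3) by ring]
  rcases l0 with l0 | l0 <;> rcases l1 with l1 | l1 <;> rcases l2 with l2 | l2
  · -- all zero
    exfalso
    have u := tendsto_nhds_unique hsum ((l0.add l1).add l2)
    have hL1 : L = 1 := by rw [ht] at u; linarith
    have hz := (l0.add l1).add l2
    rw [add_zero, add_zero] at hz
    obtain ⟨k, hk⟩ := (hz.eventually (gt_mem_nhds (show (0:ℝ) < 1/2 by norm_num))).exists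
    have g1 : L ≤ GG x (3 * k) := h.anti.le_of_tendsto hL (3 * k)
    unfold GG G at g1
    have p0 := h.pos (3 * k)
    have p1 := h.pos (3 * k + 1)
    have p2 := h.pos (3 * k + 2)
    nlinarith [mul_pos p0 p1, mul_pos p1 p2, mul_pos p0 p2]
  · exfalso
    have u := tendsto_nhds_unique hsum ((l0.add l1).add l2)
    linarith
  · exfalso
    have u := tendsto_nhds_unique hsum ((l0.add l1).add l2)
    linarith
  · -- 0, t, t
    have u := tendsto_nhds_unique hsum ((l0.add l1).add l2)
    have ht1 : t = 1 := by linarith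
    have hL0 : L = 0 := by rw [ht] at ht1; linarith
    rw [ht1] at l1 l2
    rw [hL0] at hL
    exact Or.inr ⟨⟨0, by norm_num, l0, l1, l2⟩, hL⟩
  · exfalso
    have u := tendsto_nhds_unique hsum ((l0.add l1).add l2)
    linarith
  · -- t, 0, t
    have u := tendsto_nhds_unique hsum ((l0.add l1).add l2)
    have ht1 : t = 1 := by linarith
    have hL0 : L = 0 := by rw [ht] at ht1; linarith
    rw [ht1] at l0 l2
    rw [hL0] at hL
    exact Or.inr ⟨⟨1, by norm_num, l1, l2, nextc (i := 0) l0⟩, hL⟩
  · -- t, t, 0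
    have u := tendsto_nhds_unique hsum ((l0.add l1).add l2)
    have ht1 : t = 1 := by linarith
    have hL0 : L = 0 := by rw [ht] at ht1; linarith
    rw [ht1] at l0 l1
    rw [hL0] at hL
    exact Or.inr ⟨⟨2, by norm_num, l2, nextc (i := 0) l0, nextc (i := 1) l1⟩, hL⟩
  · -- t, t, t
    have u := tendsto_nhds_unique hsum ((l0.add l1).add l2)
    have ht1 : t = 1/2 := by linarith
    have hL0 : L = 1/4 := by rw [ht] at ht1; linarith
    rw [ht1] at l0 l1 l2
    rw [hL0] at hL
    exact Or.inl ⟨tendsto_of_mod3 l0 l1 l2, hL⟩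

end Pool.Agent.T2H59.RR
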