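import Pool.Agent.T2H59.RR.R2

open Filter Topology Set

namespace Pool.Agent.T2H59.RR

lemma iter1 (p : ℝ × ℝ × ℝ) (n : ℕ) : (step^[n] p).2.1 = term p (n + 1) := by
  unfold term
  rw [Function.iterate_succ_apply']
  rfl

lemma iter2 (p : ℝ × ℝ × ℝ) (n : ℕ) : (step^[n] p).2.2 = term p (n + 2) := by
  rw [show n + 2 = (n + 1) + 1 by ring, ← iter1, Function.iterate_succ_apply']
  rfl

lemma step_pos {p : ℝ × ℝ × ℝ} (h : p ∈ Pos) : step p ∈ Pos := by
  obtain ⟨h1, h2, h3⟩ := h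
  refine ⟨h2, h3, ?_⟩
  show 0 < 2 * p.1 / (1 + p.2.2 + p.2.1)
  positivity

lemma iter_pos {p : ℝ × ℝ × ℝ} (h : p ∈ Pos) (n : ℕ) : step^[n] p ∈ Pos := by
  induction n with
  | zero => exact h
  | succ n ih =>
    rw [Function.iterate_succ_apply']
    exact step_pos ih

lemma term_rec (p : ℝ × ℝ × ℝ) (n : ℕ) :
    term p (n + 3) = 2 * term p n / (1 + term p (n + 2) + term p (n + 1)) := by
  rw [show n + 3 = (n + 1) + 2 by ring, ← iter2 p (n + 1), Function.iterate_succ_apply',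
    ← iter2 p n, ← iter1 p n]
  rfl

lemma sol {p : ℝ × ℝ × ℝ} (h : p ∈ Pos) : Sol (term p) where
  pos := fun n => (iter_pos h n).1
  eqn := fun n => term_rec p n

/-- continuous version of the step -/
noncomputable def step' (p : ℝ × ℝ × ℝ) : ℝ × ℝ × ℝ :=
  (p.2.1, p.2.2, 2 * p.1 / (1 + |p.2.2| + |p.2.1|))

lemma step'_cont : Continuous step' := by
  unfold step'
  refine Continuous.prodMk (by fun_prop) (Continuous.prodMk (by fun_prop) ?_)
  apply Continuous.div (by fun_prop) (by fun_prop)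
  intro p
  positivity

lemma step_eq {q : ℝ × ℝ × ℝ} (h : q ∈ Pos) : step' q = step q := by
  obtain ⟨h1, h2, h3⟩ := h
  unfold step' step
  rw [abs_of_pos h2, abs_of_pos h3]

lemma iter_eq {p : ℝ × ℝ × ℝ} (h : p ∈ Pos) (n : ℕ) : step'^[n] p = step^[n] p := by
  induction n with
  | zero => rfl
  | succ n ih =>
    rw [Function.iterate_succ_apply', Function.iterate_succ_apply', ih]
    exact step_eq (iter_pos h n)

lemma term_cont (n : ℕ) : ContinuousOn (fun p => term p n) Pos := by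
  have h1 : Continuous (fun p : ℝ × ℝ × ℝ => (step'^[n] p).1) :=
    continuous_fst.comp (step'_cont.iterate n)
  refine h1.continuousOn.congr (fun p hp => ?_)
  show term p n = (step'^[n] p).1
  rw [iter_eq hp]
  rfl

lemma Pos_open : IsOpen Pos := by
  have a : IsOpen {p : ℝ × ℝ × ℝ | 0 < p.1} := isOpen_lt continuous_const continuous_fst
  have b : IsOpen {p : ℝ × ℝ × ℝ | 0 < p.2.1} :=
    isOpen_lt continuous_const (continuous_fst.comp continuous_snd)
  have c : IsOpen {p : ℝ × ℝ × ℝ | 0 < p.2.2} :=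
    isOpen_lt continuous_const (continuous_snd.comp continuous_snd)
  exact a.inter (b.inter c)

lemma GG_cont (n : ℕ) : ContinuousOn (fun p => GG (term p) n) Pos := by
  unfold GG G
  have h0 := term_cont n
  have h1 := term_cont (n + 1)
  have h2 := term_cont (n + 2)
  fun_prop

/-- a negative value with large first coordinate at time `n` -/
lemma blow_at {x : ℕ → ℝ} (h : Sol x) {n : ℕ} (hG : GG x n < 0) (hn : 1 < x n) :
    Blow x (n % 3) := by
  have h2 := (h.shift n).blow (by simpa using hn) (by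
    unfold GG at hG ⊢
    simp only [zero_add]
    rw [add_comm 1 n, add_comm 2 n]
    exact hG)
  obtain ⟨a, b, c⟩ := h2
  have key : ∀ {i : ℕ} {F : Filter ℝ}, Tendsto (fun k => x (3 * k + i + n)) atTop F →
      Tendsto (fun k => x (3 * k + n % 3 + i)) atTop F := by
    intro i F hF
    rw [← tendsto_add_atTop_iff_nat (n / 3)]
    refine hF.congr (fun k => ?_)
    congr 1
    omega
  refine ⟨?_, key b, key c⟩
  have := key (i := 0) (F := atTop) (by simpa using a)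
  simpa using this

lemma exists_index {x : ℕ → ℝ} (h : Sol x) {n : ℕ} (hG : GG x n < 0) :
    ∃ j, n ≤ j ∧ j ≤ n + 2 ∧ 1 < x j ∧ GG x j < 0 := by
  rcases exists_big (h.pos n) (h.pos (n + 1)) (h.pos (n + 2)) hG with hb | hb | hb
  · exact ⟨n, le_rfl, by omega, hb, hG⟩
  · exact ⟨n + 1, by omega, by omega, hb, lt_of_le_of_lt (h.anti (by omega)) hG⟩
  · exact ⟨n + 2, by omega, by omega, hb, lt_of_le_of_lt (h.anti (by omega)) hG⟩

lemma blow_unbdd {x : ℕ → ℝ} {i : ℕ} (h : Blow x i) : ¬ ∃ M : ℝ, ∀ n, x n ≤ M := by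
  rintro ⟨M, hM⟩
  obtain ⟨k, hk⟩ := (h.1.eventually (eventually_gt_atTop M)).exists
  exact absurd (hM _) (not_le.2 hk)

/-- the classes are disjoint -/
lemma blow_unique {x : ℕ → ℝ} {i j : ℕ} (hi : i < 3) (hj : j < 3) (h : Blow x i)
    (h' : Blow x j) : i = j := by
  by_contra hne
  have key : ∀ {i j : ℕ}, i < j → j < 3 → Blow x i → Blow x j → False := by
    intro i j hij hj h h'
    have hc : j = i + 1 ∨ j = i + 2 := by omega
    rcases hc with rfl | rfl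
    · exact not_tendsto_nhds_of_tendsto_atTop (h'.1.congr (fun k => by rw [← add_assoc])) 0 h.2.1
    · exact not_tendsto_nhds_of_tendsto_atTop (h'.1.congr (fun k => by rw [← add_assoc])) 0 h.2.2
  rcases lt_or_gt_of_ne hne with hlt | hlt
  · exact key hlt hj h h'
  · exact key hlt hi h' h

lemma B_iff {p : ℝ × ℝ × ℝ} (hp : p ∈ Pos) : p ∈ B ↔ ∀ n, 0 ≤ GG (term p) n := by
  have h := sol hp
  constructor
  · rintro ⟨-, hM⟩ n
    by_contra hcon
    push Not at hcon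
    obtain ⟨j, -, -, h1, h2⟩ := exists_index h hcon
    exact blow_unbdd (blow_at h h2 h1) hM
  · intro hG
    refine ⟨hp, max (max (term p 0) (term p 1)) (4 + 2 * |GG (term p) 0|), fun n => ?_⟩
    by_contra hcon
    push Not at hcon
    rw [max_lt_iff, max_lt_iff] at hcon
    obtain ⟨⟨h0, h1⟩, h2⟩ := hcon
    match n with
    | 0 => exact lt_irrefl _ h0
    | 1 => exact lt_irrefl _ h1
    | n + 2 => exact absurd (hG (n + 2)) (not_le.2 (h.neg_of_large n h2))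

lemma not_B {p : ℝ × ℝ × ℝ} (hp : p ∈ Pos) (hB : p ∉ B) : ∃ i, i < 3 ∧ Blow (term p) i := by
  rw [B_iff hp] at hB
  push Not at hB
  obtain ⟨n, hn⟩ := hB
  obtain ⟨j, -, -, h1, h2⟩ := exists_index (sol hp) hn
  exact ⟨j % 3, Nat.mod_lt _ (by norm_num), blow_at (sol hp) h2 h1⟩

lemma U_eq {i : ℕ} (hi : i < 3) :
    U i = ⋃ n : ℕ, {p | p ∈ Pos ∧ n % 3 = i ∧ GG (term p) n < 0 ∧ 1 < term p n} := by
  ext p
  simp only [mem_iUnion, mem_ofPred_eq, U]
  constructor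
  · rintro ⟨hp, hb⟩
    have hB : p ∉ B := fun hB => blow_unbdd hb hB.2
    rw [B_iff hp] at hB
    push Not at hB
    obtain ⟨n, hn⟩ := hB
    obtain ⟨j, -, -, h1, h2⟩ := exists_index (sol hp) hn
    refine ⟨j, hp, ?_, h2, h1⟩
    exact blow_unique (Nat.mod_lt _ (by norm_num)) hi (blow_at (sol hp) h2 h1) hb
  · rintro ⟨n, hp, hn, h1, h2⟩
    refine ⟨hp, ?_⟩
    rw [← hn]
    exact blow_at (sol hp) h1 h2

lemma U_open {i : ℕ} (hi : i < 3) : IsOpen (U i) := by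
  rw [U_eq hi]
  apply isOpen_iUnion
  intro n
  by_cases hn : n % 3 = i
  · have e : {p | p ∈ Pos ∧ n % 3 = i ∧ GG (term p) n < 0 ∧ 1 < term p n} =
        (Pos ∩ (fun p => GG (term p) n) ⁻¹' Iio 0) ∩ (Pos ∩ (fun p => term p n) ⁻¹' Ioi 1) := by
      ext p
      constructor
      · rintro ⟨h1, -, h2, h3⟩
        exact ⟨⟨h1, h2⟩, ⟨h1, h3⟩⟩
      · rintro ⟨⟨h1, h2⟩, ⟨-, h3⟩⟩
        exact ⟨h1, hn, h2, h3⟩
    rw [e]
    exact ((GG_cont n).isOpen_inter_preimage Pos_open isOpen_Iio).inter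
      ((term_cont n).isOpen_inter_preimage Pos_open isOpen_Ioi)
  · have e : {p | p ∈ Pos ∧ n % 3 = i ∧ GG (term p) n < 0 ∧ 1 < term p n} = ∅ := by
      ext p
      simp [hn]
    rw [e]
    exact isOpen_empty

lemma U_disj {i j : ℕ} (hi : i < 3) (hj : j < 3) (hij : i ≠ j) : U i ∩ U j = ∅ := by
  ext p
  simp only [mem_inter_iff, mem_empty_iff_false, iff_false]
  rintro ⟨h1, h2⟩
  exact hij (blow_unique hi hj h1.2 h2.2)

lemma Pos_diff : Pos \ B = U 0 ∪ U 1 ∪ U 2 := by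
  ext p
  constructor
  · rintro ⟨hp, hB⟩
    obtain ⟨i, hi, hb⟩ := not_B hp hB
    interval_cases i
    · exact Or.inl (Or.inl ⟨hp, hb⟩)
    · exact Or.inl (Or.inr ⟨hp, hb⟩)
    · exact Or.inr ⟨hp, hb⟩
  · rintro ((h | h) | h) <;> exact ⟨h.1, fun hB => blow_unbdd h.2 hB.2⟩

/-- connected sets meeting two classes meet `B` -/
lemma conn {C : Set (ℝ × ℝ × ℝ)} (hC : IsPreconnected C) (hCP : C ⊆ Pos) {i j : ℕ} (hi : i < 3)
    (hj : j < 3) (hij : i ≠ j) (h1 : (C ∩ U i).Nonempty) (h2 : (C ∩ U j).Nonempty) :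
    (C ∩ B).Nonempty := by
  by_contra hcon
  rw [Set.not_nonempty_iff_eq_empty] at hcon
  -- the union of the other classes
  set V : Set (ℝ × ℝ × ℝ) := ⋃ m ∈ ({m | m < 3 ∧ m ≠ i} : Set ℕ), U m with hV
  have hVo : IsOpen V := isOpen_biUnion fun m hm => U_open hm.1
  have hcov : C ⊆ U i ∪ V := by
    intro p hp
    have hB : p ∉ B := fun hB => by
      have : p ∈ C ∩ B := ⟨hp, hB⟩
      rw [hcon] at this
      exact this
    obtain ⟨m, hm, hb⟩ := not_B (hCP hp) hB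
    by_cases hmi : m = i
    · left
      rw [← hmi]
      exact ⟨hCP hp, hb⟩
    · right
      exact mem_biUnion (show m ∈ {m | m < 3 ∧ m ≠ i} from ⟨hm, hmi⟩) ⟨hCP hp, hb⟩
  obtain ⟨q, -, hq1, hq2⟩ := hC (U i) V (U_open hi) hVo hcov h1
    (h2.mono (inter_subset_inter_right _ (fun p hp =>
      mem_biUnion (show j ∈ {m | m < 3 ∧ m ≠ i} from ⟨hj, hij.symm⟩) hp)))
  rw [hV, mem_iUnion₂] at hq2
  obtain ⟨m, hm, hqm⟩ := hq2
  have : q ∈ U i ∩ U m := ⟨hq1, hqm⟩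
  rw [U_disj hi hm.1 (Ne.symm hm.2)] at this
  exact this

/-- explicit bounded solutions tending to the three-cycle: one on each segment -/
lemma seg {a : ℝ} (ha : 0 < a) (ha4 : a < 1/4) :
    ∃ s : ℝ, s ^ 2 ≤ a ∧ (a, 1 + s, 1 - s) ∈ B ∧ ∃ i, i < 3 ∧ Cyc (term (a, 1 + s, 1 - s)) i := by
  set f : ℝ → ℝ × ℝ × ℝ := fun s => (a, 1 + s, 1 - s) with hf
  have hfc : Continuous f := by
    rw [hf]
    fun_prop
  have hfP : ∀ s ∈ Icc (-(1/2) : ℝ) (1/2), f s ∈ Pos := by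
    intro s hs
    refine ⟨ha, ?_, ?_⟩
    · show 0 < 1 + s
      linarith [hs.1]
    · show 0 < 1 - s
      linarith [hs.2]
  have hC : IsPreconnected (f '' Icc (-(1/2) : ℝ) (1/2)) :=
    isPreconnected_Icc.image f hfc.continuousOn
  have hG : ∀ s : ℝ, GG (term (f s)) 0 = a - s ^ 2 := by
    intro s
    have e0 : term (f s) 0 = a := rfl
    have e1 : term (f s) 1 = 1 + s := rfl
    have e2 : term (f s) 2 = 1 - s := rfl
    unfold GG G
    simp only [zero_add]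
    rw [e0, e1, e2]
    ring
  have m1 : (-(1/2) : ℝ) ∈ Icc (-(1/2) : ℝ) (1/2) := ⟨le_rfl, by norm_num⟩
  have m2 : (1/2 : ℝ) ∈ Icc (-(1/2) : ℝ) (1/2) := ⟨by norm_num, le_rfl⟩
  have u1 : f (1/2) ∈ U 1 := by
    have hp := hfP _ m2
    refine ⟨hp, blow_at (n := 1) (sol hp) ?_ ?_⟩
    · refine lt_of_le_of_lt ((sol hp).anti (Nat.zero_le 1)) ?_
      rw [hG]
      norm_num
      linarith
    · show (1:ℝ) < 1 + 1/2
      norm_num
  have u2 : f (-(1/2)) ∈ U 2 := by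
    have hp := hfP _ m1
    refine ⟨hp, blow_at (n := 2) (sol hp) ?_ ?_⟩
    · refine lt_of_le_of_lt ((sol hp).anti (Nat.zero_le 2)) ?_
      rw [hG]
      norm_num
      linarith
    · show (1:ℝ) < 1 - -(1/2)
      norm_num
  obtain ⟨q, ⟨s, hs, rfl⟩, hqB⟩ := conn hC (by rintro _ ⟨s, hs, rfl⟩; exact hfP s hs)
    (i := 1) (j := 2) (by norm_num) (by norm_num) (by norm_num)
    ⟨f (1/2), ⟨_, m2, rfl⟩, u1⟩ ⟨f (-(1/2)), ⟨_, m1, rfl⟩, u2⟩
  have hp := hfP s hs
  have hnn := (B_iff hp).1 hqB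
  have h0 := hnn 0
  rw [hG] at h0
  refine ⟨s, by linarith, hqB, ?_⟩
  obtain ⟨-, M, hM⟩ := hqB
  rcases (sol hp).conv hM hnn with ⟨-, h4⟩ | ⟨h5, -⟩
  · exfalso
    have := (sol hp).anti.le_of_tendsto h4 0
    rw [hG] at this
    nlinarith [sq_nonneg s]
  · exact h5

lemma U_nonempty {i : ℕ} (hi : i < 3) : (U i).Nonempty := by
  have key : ∀ p : ℝ × ℝ × ℝ, p ∈ Pos → GG (term p) 0 < 0 → ∀ n, 1 < term p n →
      p ∈ U (n % 3) := by
    intro p hp h0 n hn
    exact ⟨hp, blow_at (sol hp) (lt_of_le_of_lt ((sol hp).anti (Nat.zero_le n)) h0) hn⟩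
  have e : ∀ a b c : ℝ, GG (term (a, b, c)) 0 = G a b c := fun a b c => rfl
  interval_cases i
  · refine ⟨(2, 1/4, 1/4), key _ ⟨by norm_num, by norm_num, by norm_num⟩ ?_ 0 ?_⟩
    · rw [e]; unfold G; norm_num
    · show (1:ℝ) < 2
      norm_num
  · refine ⟨(1/4, 2, 1/4), key _ ⟨by norm_num, by norm_num, by norm_num⟩ ?_ 1 ?_⟩
    · rw [e]; unfold G; norm_num
    · show (1:ℝ) < 2
      norm_num
  · refine ⟨(1/4, 1/4, 2), key _ ⟨by norm_num, by norm_num, by norm_num⟩ ?_ 2 ?_⟩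
    · rw [e]; unfold G; norm_num
    · show (1:ℝ) < 2
      norm_num

end Pool.Agent.T2H59.RR
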