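import Pool.Agent.T2H59.RR.R3

open Filter Topology Set MeasureTheory
open scoped ENNReal

namespace Pool.Agent.T2H59.RR

/-! elementary estimates near the three-cycle -/

lemma exp_lo {t : ℝ} (h : |t| ≤ 1/10) : 9/10 ≤ Real.exp t := by
  have := Real.add_one_le_exp t
  have := (abs_le.1 h).1
  linarith

lemma exp_hi' {t : ℝ} (h : t < 1) : Real.exp t ≤ 1 / (1 - t) := by
  have h1 := Real.add_one_le_exp (-t)
  have h2 : Real.exp t * Real.exp (-t) = 1 := by rw [← Real.exp_add]; simp
  rw [le_div_iff₀ (by linarith)]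
  have h3 := Real.exp_pos t
  nlinarith

lemma exp_hi {t : ℝ} (h : |t| ≤ 1/10) : Real.exp t ≤ 10/9 := by
  have h1 := (abs_le.1 h).2
  refine (exp_hi' (by linarith)).trans ?_
  rw [div_le_div_iff₀ (by linarith) (by norm_num)]
  linarith

lemma exp_tiny {t : ℝ} (h : t ≤ -10) : Real.exp t ≤ 1/11 := by
  refine (exp_hi' (by linarith)).trans ?_
  rw [div_le_div_iff₀ (by linarith) (by norm_num)]
  linarith

lemma sq_le_exp {t : ℝ} (h : |t| ≤ 1/10) : t ^ 2 ≤ 4 * (Real.exp t - 1) ^ 2 := by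
  have h1 := Real.add_one_le_exp t
  have h2 := abs_le.1 h
  have h3 := exp_hi' (t := t) (by linarith)
  rcases le_total 0 t with h0 | h0
  · nlinarith
  · have h4 : Real.exp t - 1 ≤ t / 2 := by
      have : 1 / (1 - t) ≤ 1 + t / 2 := by
        rw [div_le_iff₀ (by linarith)]
        nlinarith
      linarith
    nlinarith

lemma log_sum_bound (v w : ℝ) :
    |Real.log (1 + Real.exp w + Real.exp v) - Real.log 3| ≤ |v| + |w| := by
  have hv := Real.exp_pos v
  have hw := Real.exp_pos w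
  set m := |v| + |w| with hm
  have hm0 : 0 ≤ m := by positivity
  have h1 : 1 + Real.exp w + Real.exp v ≤ 3 * Real.exp m := by
    have a1 : Real.exp v ≤ Real.exp m := Real.exp_le_exp.2 (by
      linarith [le_abs_self v, abs_nonneg w])
    have a2 : Real.exp w ≤ Real.exp m := Real.exp_le_exp.2 (by
      linarith [le_abs_self w, abs_nonneg v])
    have a3 : 1 ≤ Real.exp m := Real.one_le_exp hm0
    linarith
  have h2 : 3 * Real.exp (-m) ≤ 1 + Real.exp w + Real.exp v := by
    have a1 : Real.exp (-m) ≤ Real.exp v := Real.exp_le_exp.2 (by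
      linarith [neg_abs_le v, abs_nonneg w])
    have a2 : Real.exp (-m) ≤ Real.exp w := Real.exp_le_exp.2 (by
      linarith [neg_abs_le w, abs_nonneg v])
    have a3 : Real.exp (-m) ≤ 1 := Real.exp_le_one_iff.2 (by linarith)
    linarith
  rw [abs_le]
  constructor
  · have := Real.log_le_log (by positivity) h2
    rw [Real.log_mul (by norm_num) (Real.exp_pos _).ne', Real.log_exp] at this
    linarith
  · have := Real.log_le_log (by positivity) h1
    rw [Real.log_mul (by norm_num) (Real.exp_pos _).ne', Real.log_exp] at this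
    linarith

/-- a sequence in logarithmic coordinates staying near the three-cycle -/
structure Near (l : ℕ → ℝ) : Prop where
  s : Sol (fun n => Real.exp (l n))
  a : ∀ k, l (3 * k) ≤ -10
  b : ∀ k, |l (3 * k + 1)| ≤ 1/10
  c : ∀ k, |l (3 * k + 2)| ≤ 1/10

lemma GG_nonneg_of_bdd {x : ℕ → ℝ} (h : Sol x) (hM : ∃ M : ℝ, ∀ n, x n ≤ M) (n : ℕ) :
    0 ≤ GG x n := by
  by_contra hcon
  push Not at hcon
  obtain ⟨j, -, -, h1, h2⟩ := exists_index h hcon
  exact blow_unbdd (blow_at h h2 h1) hM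

lemma Near.bdd {l : ℕ → ℝ} (h : Near l) (n : ℕ) : Real.exp (l n) ≤ 2 := by
  have hn3 : n = 3 * (n / 3) + n % 3 := (Nat.div_add_mod n 3).symm
  have hlt : n % 3 < 3 := Nat.mod_lt _ (by norm_num)
  rw [hn3]
  interval_cases hm : n % 3
  · have := exp_tiny (h.a (n / 3))
    simp only [add_zero]
    linarith
  · have := exp_hi (h.b (n / 3))
    linarith
  · have := exp_hi (h.c (n / 3))
    linarith

lemma Near.sum_le {l : ℕ → ℝ} (h : Near l) (N : ℕ) :
    ∑ k ∈ Finset.range N, (l (3 * k + 1) ^ 2 + l (3 * k + 2) ^ 2) ≤ 50 := by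
  set x : ℕ → ℝ := fun n => Real.exp (l n) with hx
  have hG : ∀ n, 0 ≤ GG x n := GG_nonneg_of_bdd h.s ⟨2, h.bdd⟩
  have key : ∀ k, l (3 * k + 2) ^ 2 + l (3 * k + 4) ^ 2 ≤
      (20 * GG x (3 * k + 1) + 57 * x (3 * k + 3)) -
        (20 * GG x (3 * (k + 1) + 1) + 57 * x (3 * (k + 1) + 3)) := by
    intro k
    have s1 := h.s.step (3 * k + 1)
    have s2 := h.s.step (3 * k + 2)
    have s3 := h.s.anti (show 3 * k + 3 ≤ 3 * (k + 1) + 1 by omega)
    have e1 := h.s.eqn (3 * k + 3)
    have hc := h.c k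
    have hb := h.b k
    have ha' := h.a (k + 1)
    have hb' := h.b (k + 1)
    have hc' := h.c (k + 1)
    rw [show 3 * (k + 1) = 3 * k + 3 by ring] at ha'
    rw [show 3 * (k + 1) + 1 = 3 * k + 4 by ring] at hb'
    rw [show 3 * (k + 1) + 2 = 3 * k + 5 by ring] at hc'
    have q1 := sq_le_exp hc
    have q2 := sq_le_exp hb'
    have yl := exp_lo hb
    have zl := exp_lo hc
    have zh := exp_hi hc
    have Xh := exp_tiny ha'
    have Xp := Real.exp_pos (l (3 * k + 3))
    have Yl := exp_lo hb'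
    have Yh := exp_hi hb'
    have Zl := exp_lo hc'
    rw [show 3 * k + 1 + 1 = 3 * k + 2 by ring, show 3 * k + 1 + 2 = 3 * k + 3 by ring] at s1
    rw [show 3 * k + 2 + 1 = 3 * k + 3 by ring, show 3 * k + 2 + 2 = 3 * k + 4 by ring] at s2
    rw [show 3 * k + 3 + 3 = 3 * k + 6 by ring, show 3 * k + 3 + 2 = 3 * k + 5 by ring,
      show 3 * k + 3 + 1 = 3 * k + 4 by ring] at e1
    rw [show 3 * (k + 1) + 3 = 3 * k + 6 by ring]
    simp only [hx] at s1 s2 s3 e1 ⊢
    set Y := Real.exp (l (3 * k + 1))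
    set Z := Real.exp (l (3 * k + 2))
    set X' := Real.exp (l (3 * k + 3))
    set Y' := Real.exp (l (3 * k + 4))
    set Z' := Real.exp (l (3 * k + 5))
    set X'' := Real.exp (l (3 * k + 6))
    have d1 : 2/5 * (Z + X' - 1) ^ 2 ≤ Y * (Z + X' - 1) ^ 2 / (1 + X' + Z) := by
      rw [le_div_iff₀ (by linarith)]
      have : 2/5 * (1 + X' + Z) ≤ Y := by linarith
      nlinarith [sq_nonneg (Z + X' - 1)]
    have d2 : 2/5 * (X' + Y' - 1) ^ 2 ≤ Z * (X' + Y' - 1) ^ 2 / (1 + Y' + X') := by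
      rw [le_div_iff₀ (by linarith)]
      have : 2/5 * (1 + Y' + X') ≤ Z := by linarith
      nlinarith [sq_nonneg (X' + Y' - 1)]
    have d3 : X'' ≤ 5/7 * X' := by
      rw [e1, div_le_iff₀ (by linarith)]
      nlinarith
    have d4 : 16 * X' ^ 2 ≤ 57 * (X' - X'') := by nlinarith
    have d5 : (Z - 1) ^ 2 ≤ 2 * (Z + X' - 1) ^ 2 + 2 * X' ^ 2 := by
      nlinarith [sq_nonneg (Z - 1 + 2 * X')]
    have d6 : (Y' - 1) ^ 2 ≤ 2 * (X' + Y' - 1) ^ 2 + 2 * X' ^ 2 := by
      nlinarith [sq_nonneg (Y' - 1 + 2 * X')]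
    linarith
  have main : ∀ N, ∑ k ∈ Finset.range N, (l (3 * k + 1) ^ 2 + l (3 * k + 2) ^ 2) +
      l (3 * N + 1) ^ 2 ≤ l 1 ^ 2 + ((20 * GG x 1 + 57 * x 3) -
        (20 * GG x (3 * N + 1) + 57 * x (3 * N + 3))) := by
    intro N
    induction N with
    | zero => simp
    | succ N ih =>
      rw [Finset.sum_range_succ]
      have := key N
      rw [show 3 * (N + 1) + 1 = 3 * N + 4 by ring] at *
      linarith
  have m1 := main N
  have p1 := hG (3 * N + 1)
  have p2 := Real.exp_pos (l (3 * N + 3))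
  have p3 := sq_nonneg (l (3 * N + 1))
  have hb0 := h.b 0
  simp only [mul_zero, zero_add] at hb0
  have p4 : l 1 ^ 2 ≤ 1 := by
    have := abs_le.1 hb0
    nlinarith
  have p5 := exp_tiny (h.a 1)
  rw [show 3 * 1 = 3 by norm_num] at p5
  have p6 : GG x 1 ≤ 1 := by
    have hc0 := h.c 0
    simp only [mul_zero, zero_add] at hc0
    have a1 := exp_lo hb0
    have a2 := exp_hi hb0
    have a3 := exp_lo hc0
    have a4 := exp_hi hc0
    have a5 := Real.exp_pos (l 3)
    show G (Real.exp (l 1)) (Real.exp (l 2)) (Real.exp (l 3)) ≤ 1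
    unfold G
    set Y := Real.exp (l 1)
    set Z := Real.exp (l 2)
    set X := Real.exp (l 3)
    have b1 : Y * Z ≤ 10/9 * (10/9) := by
      apply mul_le_mul a2 a4 (by linarith) (by norm_num)
    have b2 : Y * Z * X ≤ 10/9 * (10/9) * (1/11) := by
      apply mul_le_mul b1 p5 a5.le (by norm_num)
    have b3 : |(1 - Y) * (1 - Z) * (1 - X)| ≤ 1/9 * (1/9) * 1 := by
      rw [abs_mul, abs_mul]
      apply mul_le_mul (mul_le_mul _ _ (abs_nonneg _) (by norm_num)) _ (abs_nonneg _) (by norm_num)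
      · rw [abs_le]; constructor <;> linarith
      · rw [abs_le]; constructor <;> linarith
      · rw [abs_le]; constructor <;> linarith
    have b4 := le_abs_self ((1 - Y) * (1 - Z) * (1 - X))
    linarith
  have p7 : x 3 ≤ 1/11 := p5
  have p8 : 0 < x (3 * N + 3) := p2
  linarith

lemma Near.drift {l : ℕ → ℝ} (h : Near l) (k : ℕ) :
    |l (3 * k) - l 0 + k * (Real.log 3 - Real.log 2)| ≤
      ∑ j ∈ Finset.range k, (|l (3 * j + 1)| + |l (3 * j + 2)|) := by
  induction k with
  | zero => simp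
  | succ k ih =>
    rw [Finset.sum_range_succ]
    have e := h.s.eqn (3 * k)
    have e2 : l (3 * k + 3) = Real.log 2 + l (3 * k) -
        Real.log (1 + Real.exp (l (3 * k + 2)) + Real.exp (l (3 * k + 1))) := by
      have := congrArg Real.log e
      rw [Real.log_exp, Real.log_div (by positivity) (by positivity),
        Real.log_mul (by norm_num) (Real.exp_pos _).ne', Real.log_exp] at this
      exact this
    have b := log_sum_bound (l (3 * k + 1)) (l (3 * k + 2))
    have e3 : l (3 * (k + 1)) - l 0 + ((k + 1 : ℕ) : ℝ) * (Real.log 3 - Real.log 2) =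
        (l (3 * k) - l 0 + k * (Real.log 3 - Real.log 2)) -
        (Real.log (1 + Real.exp (l (3 * k + 2)) + Real.exp (l (3 * k + 1))) - Real.log 3) := by
      rw [show 3 * (k + 1) = 3 * k + 3 by ring, e2]
      push_cast
      ring
    rw [e3]
    refine (abs_sub _ _).trans ?_
    linarith

end Pool.Agent.T2H59.RR
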