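import Pool.Agent.T2H59.RR.R4

open Filter Topology Set MeasureTheory
open scoped ENNReal

namespace Pool.Agent.T2H59.RR

/-- the map in logarithmic coordinates -/
noncomputable def F (q : ℝ × ℝ × ℝ) : ℝ × ℝ × ℝ :=
  (q.2.1, q.2.2, q.1 + (Real.log 2 - Real.log (1 + Real.exp q.2.2 + Real.exp q.2.1)))

lemma F_mp : MeasurePreserving F volume volume := by
  have h1 : MeasurePreserving (Prod.swap : ℝ × (ℝ × ℝ) → (ℝ × ℝ) × ℝ) volume volume :=
    Measure.measurePreserving_swap
  have hm : Measurable (Function.uncurry fun (a : ℝ × ℝ) (u : ℝ) =>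
      u + (Real.log 2 - Real.log (1 + Real.exp a.2 + Real.exp a.1))) := by
    unfold Function.uncurry
    fun_prop
  have h2 : MeasurePreserving (fun p : (ℝ × ℝ) × ℝ => (id p.1,
      (fun (a : ℝ × ℝ) (u : ℝ) =>
        u + (Real.log 2 - Real.log (1 + Real.exp a.2 + Real.exp a.1))) p.1 p.2))
      (volume.prod volume) (volume.prod volume) :=
    MeasurePreserving.skew_product (MeasurePreserving.id _) hm
      (Eventually.of_forall fun a => map_add_right_eq_self volume _)
  have h3 : MeasurePreserving (MeasurableEquiv.prodAssoc : (ℝ × ℝ) × ℝ ≃ᵐ ℝ × ℝ × ℝ)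
      volume volume := measurePreserving_prodAssoc _ _ _
  exact h3.comp (h2.comp h1)

/-- the solution in logarithmic coordinates -/
noncomputable def L (q : ℝ × ℝ × ℝ) (n : ℕ) : ℝ := (F^[n] q).1

lemma L1 (q : ℝ × ℝ × ℝ) (n : ℕ) : (F^[n] q).2.1 = L q (n + 1) := by
  unfold L
  rw [Function.iterate_succ_apply']
  rfl

lemma L2 (q : ℝ × ℝ × ℝ) (n : ℕ) : (F^[n] q).2.2 = L q (n + 2) := by
  rw [show n + 2 = (n + 1) + 1 by ring, ← L1, Function.iterate_succ_apply']
  rfl

lemma L_shift (q : ℝ × ℝ × ℝ) (m n : ℕ) : L (F^[m] q) n = L q (n + m) := by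
  unfold L
  rw [Function.iterate_add_apply]

/-- exponential coordinates -/
noncomputable def E (q : ℝ × ℝ × ℝ) : ℝ × ℝ × ℝ := (Real.exp q.1, Real.exp q.2.1, Real.exp q.2.2)

lemma E_pos (q : ℝ × ℝ × ℝ) : E q ∈ Pos := ⟨Real.exp_pos _, Real.exp_pos _, Real.exp_pos _⟩

lemma E_F (q : ℝ × ℝ × ℝ) : E (F q) = step (E q) := by
  have h : Real.exp (q.1 + (Real.log 2 - Real.log (1 + Real.exp q.2.2 + Real.exp q.2.1))) =
      2 * Real.exp q.1 / (1 + Real.exp q.2.2 + Real.exp q.2.1) := by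
    rw [Real.exp_add, Real.exp_sub, Real.exp_log (by norm_num), Real.exp_log (by positivity)]
    ring
  unfold E F step
  simp only [h]

lemma E_iter (q : ℝ × ℝ × ℝ) (n : ℕ) : E (F^[n] q) = step^[n] (E q) := by
  induction n with
  | zero => rfl
  | succ n ih => rw [Function.iterate_succ_apply', Function.iterate_succ_apply', E_F, ih]

lemma term_E (q : ℝ × ℝ × ℝ) (n : ℕ) : term (E q) n = Real.exp (L q n) := by
  unfold term
  rw [← E_iter]
  rfl

lemma L_sol (q : ℝ × ℝ × ℝ) : Sol (fun n => Real.exp (L q n)) := by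
  have h := sol (E_pos q)
  have e : term (E q) = fun n => Real.exp (L q n) := funext (term_E q)
  rwa [e] at h

lemma box_vol (a b c d e f : ℝ) : volume (Icc a b ×ˢ (Icc c d ×ˢ Icc e f)) =
    ENNReal.ofReal (b - a) * (ENNReal.ofReal (d - c) * ENNReal.ofReal (f - e)) := by
  rw [Measure.volume_eq_prod, Measure.prod_prod, Measure.volume_eq_prod, Measure.prod_prod,
    Real.volume_Icc, Real.volume_Icc, Real.volume_Icc]

lemma meas_box (a b c d e f : ℝ) : MeasurableSet (Icc a b ×ˢ (Icc c d ×ˢ Icc e f)) :=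
  measurableSet_Icc.prod (measurableSet_Icc.prod measurableSet_Icc)

lemma pre_box (n : ℕ) (a b c d e f : ℝ) :
    volume (F^[n] ⁻¹' (Icc a b ×ˢ (Icc c d ×ˢ Icc e f))) =
    ENNReal.ofReal (b - a) * (ENNReal.ofReal (d - c) * ENNReal.ofReal (f - e)) := by
  rw [(F_mp.iterate n).measure_preimage (meas_box a b c d e f).nullMeasurableSet, box_vol]

lemma mem_pre_box {q : ℝ × ℝ × ℝ} {n : ℕ} {a b c d e f : ℝ} (h1 : L q n ∈ Icc a b)
    (h2 : L q (n + 1) ∈ Icc c d) (h3 : L q (n + 2) ∈ Icc e f) :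
    q ∈ F^[n] ⁻¹' (Icc a b ×ˢ (Icc c d ×ˢ Icc e f)) := by
  refine ⟨h1, ?_, ?_⟩
  · rw [L1]; exact h2
  · rw [L2]; exact h3

/-- the solutions which converge form a null set -/
lemma null_half (c : ℝ) : volume {q : ℝ × ℝ × ℝ | Tendsto (L q) atTop (𝓝 c)} = 0 := by
  have key : ∀ t : ℕ, volume {q : ℝ × ℝ × ℝ | Tendsto (L q) atTop (𝓝 c)} ≤
      ENNReal.ofReal (8 * (1 / ((t : ℝ) + 1)) ^ 3) := by
    intro t
    set ε : ℝ := 1 / ((t : ℝ) + 1) with hε
    have hε0 : 0 < ε := by positivity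
    set A : ℕ → Set (ℝ × ℝ × ℝ) := fun K => {q | ∀ n, K ≤ n → |L q n - c| ≤ ε} with hA
    have hmono : Monotone A := by
      intro i j hij q hq n hn
      exact hq n (hij.trans hn)
    have hsub : {q : ℝ × ℝ × ℝ | Tendsto (L q) atTop (𝓝 c)} ⊆ ⋃ K, A K := by
      intro q hq
      have h1 := Metric.tendsto_atTop.1 hq ε hε0
      obtain ⟨K, hK⟩ := h1
      refine mem_iUnion.2 ⟨K, fun n hn => ?_⟩
      have := hK n hn
      rw [Real.dist_eq] at this
      exact this.le
    refine (measure_mono hsub).trans ?_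
    rw [hmono.measure_iUnion]
    refine iSup_le fun K => ?_
    have h2 : A K ⊆ F^[K] ⁻¹' (Icc (c - ε) (c + ε) ×ˢ
        (Icc (c - ε) (c + ε) ×ˢ Icc (c - ε) (c + ε))) := by
      intro q hq
      have hh : ∀ n, K ≤ n → L q n ∈ Icc (c - ε) (c + ε) := by
        intro n hn
        have := abs_le.1 (hq n hn)
        constructor <;> linarith
      exact mem_pre_box (hh _ le_rfl) (hh _ (by omega)) (hh _ (by omega))
    refine (measure_mono h2).trans ?_
    rw [pre_box, ← ENNReal.ofReal_mul (by linarith), ← ENNReal.ofReal_mul (by linarith)]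
    apply ENNReal.ofReal_le_ofReal
    apply le_of_eq
    ring
  have h0 : Tendsto (fun t : ℕ => ENNReal.ofReal (8 * (1 / ((t : ℝ) + 1)) ^ 3)) atTop (𝓝 0) := by
    rw [← ENNReal.ofReal_zero]
    apply ENNReal.tendsto_ofReal
    have := (tendsto_one_div_add_atTop_nhds_zero_nat (𝕜 := ℝ)).pow 3
    have := this.const_mul 8
    simpa using this
  exact le_antisymm (ge_of_tendsto' h0 key) zero_le

end Pool.Agent.T2H59.RR
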