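import Pool.Agent.T2H59.RR.R5

open Filter Topology Set MeasureTheory
open scoped ENNReal

namespace Pool.Agent.T2H59.RR

/-- many times at which the solution is very near to the three-cycle -/
lemma Near.many {l : ℕ → ℝ} (h : Near l) {t : ℕ} (ht : 0 < t) :
    2 * t ^ 2 ≤ ((Finset.Ico (4 * t ^ 2) (8 * t ^ 2)).filter
      (fun k => l (3 * k + 1) ^ 2 + l (3 * k + 2) ^ 2 ≤ 25 / (t : ℝ) ^ 2)).card := by
  classical
  have ht0 : (0 : ℝ) < t := by exact_mod_cast ht
  by_contra hcon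
  push Not at hcon
  have hsplit := Finset.card_filter_add_card_filter_not (s := Finset.Ico (4 * t ^ 2) (8 * t ^ 2))
    (fun k => l (3 * k + 1) ^ 2 + l (3 * k + 2) ^ 2 ≤ 25 / (t : ℝ) ^ 2)
  rw [Nat.card_Ico] at hsplit
  have hbad : 2 * t ^ 2 < ((Finset.Ico (4 * t ^ 2) (8 * t ^ 2)).filter
      (fun k => ¬ l (3 * k + 1) ^ 2 + l (3 * k + 2) ^ 2 ≤ 25 / (t : ℝ) ^ 2)).card := by omega
  have h1 : ∑ k ∈ (Finset.Ico (4 * t ^ 2) (8 * t ^ 2)).filter
      (fun k => ¬ l (3 * k + 1) ^ 2 + l (3 * k + 2) ^ 2 ≤ 25 / (t : ℝ) ^ 2),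
      (l (3 * k + 1) ^ 2 + l (3 * k + 2) ^ 2) ≤ 50 := by
    refine le_trans (Finset.sum_le_sum_of_subset_of_nonneg (t := Finset.range (8 * t ^ 2)) ?_ ?_)
      (h.sum_le _)
    · intro k hk
      have := (Finset.mem_Ico.1 (Finset.mem_filter.1 hk).1).2
      exact Finset.mem_range.2 this
    · intro k _ _
      positivity
  have h2 := Finset.card_nsmul_le_sum ((Finset.Ico (4 * t ^ 2) (8 * t ^ 2)).filter
      (fun k => ¬ l (3 * k + 1) ^ 2 + l (3 * k + 2) ^ 2 ≤ 25 / (t : ℝ) ^ 2))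
      (fun k => l (3 * k + 1) ^ 2 + l (3 * k + 2) ^ 2) (25 / (t : ℝ) ^ 2)
      (fun k hk => (not_le.1 (Finset.mem_filter.1 hk).2).le)
  rw [nsmul_eq_mul] at h2
  have h3 : (2 * (t : ℝ) ^ 2) < (((Finset.Ico (4 * t ^ 2) (8 * t ^ 2)).filter
      (fun k => ¬ l (3 * k + 1) ^ 2 + l (3 * k + 2) ^ 2 ≤ 25 / (t : ℝ) ^ 2)).card : ℝ) := by
    exact_mod_cast hbad
  have h4 : (0 : ℝ) < 25 / (t : ℝ) ^ 2 := by positivity
  have h5 := mul_lt_mul_of_pos_right h3 h4
  have h6 : 2 * (t : ℝ) ^ 2 * (25 / (t : ℝ) ^ 2) = 50 := by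
    field_simp
    norm_num
  linarith

lemma Near.drift_le {l : ℕ → ℝ} (h : Near l) {t k : ℕ} (hk : k ≤ 8 * t ^ 2) :
    |l (3 * k) - l 0 + k * (Real.log 3 - Real.log 2)| ≤ 29 * t := by
  refine (h.drift k).trans ?_
  have h1 : (∑ j ∈ Finset.range k, (|l (3 * j + 1)| + |l (3 * j + 2)|)) ^ 2 ≤
      k * ∑ j ∈ Finset.range k, (|l (3 * j + 1)| + |l (3 * j + 2)|) ^ 2 := by
    have := sq_sum_le_card_mul_sum_sq (s := Finset.range k)
      (f := fun j => |l (3 * j + 1)| + |l (3 * j + 2)|)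
    simpa using this
  have h2 : ∑ j ∈ Finset.range k, (|l (3 * j + 1)| + |l (3 * j + 2)|) ^ 2 ≤ 100 := by
    have a : ∑ j ∈ Finset.range k, (|l (3 * j + 1)| + |l (3 * j + 2)|) ^ 2 ≤
        ∑ j ∈ Finset.range k, 2 * (l (3 * j + 1) ^ 2 + l (3 * j + 2) ^ 2) := by
      apply Finset.sum_le_sum
      intro j _
      have b1 := sq_abs (l (3 * j + 1))
      have b2 := sq_abs (l (3 * j + 2))
      nlinarith [sq_nonneg (|l (3 * j + 1)| - |l (3 * j + 2)|)]
    rw [← Finset.mul_sum] at a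
    have := h.sum_le k
    linarith
  have h3 : (k : ℝ) ≤ 8 * (t : ℝ) ^ 2 := by exact_mod_cast hk
  have hk0 : (0 : ℝ) ≤ k := Nat.cast_nonneg k
  have h4 : (∑ j ∈ Finset.range k, (|l (3 * j + 1)| + |l (3 * j + 2)|)) ^ 2 ≤
      (29 * (t : ℝ)) ^ 2 := by
    have a : (k : ℝ) * ∑ j ∈ Finset.range k, (|l (3 * j + 1)| + |l (3 * j + 2)|) ^ 2 ≤
        k * 100 := mul_le_mul_of_nonneg_left h2 hk0
    nlinarith [sq_nonneg (t : ℝ)]
  exact le_of_abs_le (abs_le_of_sq_le_sq h4 (by positivity))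

lemma null_AR {R : ℝ} (hR : 0 ≤ R) :
    volume {q : ℝ × ℝ × ℝ | Near (L q) ∧ -R ≤ L q 0} = 0 := by
  set S : Set (ℝ × ℝ × ℝ) := {q | Near (L q) ∧ -R ≤ L q 0} with hS
  have key : ∀ t : ℕ, 0 < t → ((2 * t ^ 2 : ℕ) : ℝ≥0∞) * volume S ≤
      ENNReal.ofReal (400 * (R + 58 * t)) := by
    intro t ht
    have ht0 : (0 : ℝ) < t := by exact_mod_cast ht
    set d := Real.log 3 - Real.log 2 with hd
    set bx : ℕ → Set (ℝ × ℝ × ℝ) := fun k => F^[3 * k] ⁻¹'
      (Icc (-R - k * d - 29 * t) (-(k * d) + 29 * t) ×ˢ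
        (Icc (-(5 / (t : ℝ))) (5 / (t : ℝ)) ×ˢ Icc (-(5 / (t : ℝ))) (5 / (t : ℝ)))) with hbx
    have hbm : ∀ k, MeasurableSet (bx k) := fun k =>
      (F_mp.iterate (3 * k)).measurable (meas_box _ _ _ _ _ _)
    have hmi : ∀ k, Measurable ((bx k).indicator (1 : ℝ × ℝ × ℝ → ℝ≥0∞)) := fun k =>
      measurable_one.indicator (hbm k)
    set f : ℝ × ℝ × ℝ → ℝ≥0∞ := fun q => ∑ k ∈ Finset.Ico (4 * t ^ 2) (8 * t ^ 2),
      (bx k).indicator (1 : ℝ × ℝ × ℝ → ℝ≥0∞) q with hf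
    have hfm : Measurable f := Finset.measurable_fun_sum _ (fun k _ => hmi k)
    have hint : ∫⁻ q, f q = ∑ k ∈ Finset.Ico (4 * t ^ 2) (8 * t ^ 2), volume (bx k) := by
      rw [hf, lintegral_finsetSum _ (fun k _ => hmi k)]
      apply Finset.sum_congr rfl
      intro k _
      rw [lintegral_indicator_one (hbm k)]
    have hsub : S ⊆ {q | ((2 * t ^ 2 : ℕ) : ℝ≥0∞) ≤ f q} := by
      rintro q ⟨hq, hRq⟩
      have h1 := hq.many ht
      show ((2 * t ^ 2 : ℕ) : ℝ≥0∞) ≤ f q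
      set J := (Finset.Ico (4 * t ^ 2) (8 * t ^ 2)).filter
        (fun k => L q (3 * k + 1) ^ 2 + L q (3 * k + 2) ^ 2 ≤ 25 / (t : ℝ) ^ 2) with hJ
      have h2 : ((2 * t ^ 2 : ℕ) : ℝ≥0∞) ≤ (J.card : ℝ≥0∞) := by exact_mod_cast h1
      have h3 : (J.card : ℝ≥0∞) ≤ ∑ k ∈ J, (bx k).indicator (1 : ℝ × ℝ × ℝ → ℝ≥0∞) q := by
        have e : (J.card : ℝ≥0∞) = ∑ k ∈ J, (1 : ℝ≥0∞) := by simp
        rw [e]
        apply Finset.sum_le_sum
        intro k hk
        obtain ⟨hk1, hk2⟩ := Finset.mem_filter.1 hk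
        have hk3 := (Finset.mem_Ico.1 hk1).2
        have a1 := abs_le.1 (hq.drift_le (t := t) hk3.le)
        have a0 := hq.a 0
        rw [mul_zero] at a0
        have e25 : 25 / (t : ℝ) ^ 2 = (5 / (t : ℝ)) ^ 2 := by
          rw [div_pow]; norm_num
        rw [e25] at hk2
        have a2 := abs_le.1 (abs_le_of_sq_le_sq
          (show L q (3 * k + 1) ^ 2 ≤ (5 / (t : ℝ)) ^ 2 by nlinarith [sq_nonneg (L q (3 * k + 2))])
          (by positivity))
        have a3 := abs_le.1 (abs_le_of_sq_le_sq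
          (show L q (3 * k + 2) ^ 2 ≤ (5 / (t : ℝ)) ^ 2 by nlinarith [sq_nonneg (L q (3 * k + 1))])
          (by positivity))
        have hmem : q ∈ bx k := by
          refine mem_pre_box ⟨?_, ?_⟩ a2 a3
          · linarith [a1.1]
          · linarith [a1.2]
        rw [indicator_of_mem hmem]
        rfl
      have h4 : ∑ k ∈ J, (bx k).indicator (1 : ℝ × ℝ × ℝ → ℝ≥0∞) q ≤ f q :=
        Finset.sum_le_sum_of_subset (Finset.filter_subset _ _)
      exact h2.trans (h3.trans h4)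
    have hv : ∀ k, volume (bx k) = ENNReal.ofReal (100 * (R + 58 * t) / (t : ℝ) ^ 2) := by
      intro k
      rw [hbx]
      simp only
      rw [pre_box, ← ENNReal.ofReal_mul (by
          have : 0 < 5 / (t : ℝ) := by positivity
          linarith), ← ENNReal.ofReal_mul (by linarith)]
      congr 1
      field_simp
      ring
    calc ((2 * t ^ 2 : ℕ) : ℝ≥0∞) * volume S
        ≤ ((2 * t ^ 2 : ℕ) : ℝ≥0∞) * volume {q | ((2 * t ^ 2 : ℕ) : ℝ≥0∞) ≤ f q} := by
          gcongr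
      _ ≤ ∫⁻ q, f q := mul_meas_ge_le_lintegral hfm _
      _ = ∑ k ∈ Finset.Ico (4 * t ^ 2) (8 * t ^ 2), volume (bx k) := hint
      _ = ENNReal.ofReal (400 * (R + 58 * t)) := by
          rw [Finset.sum_congr rfl (fun k _ => hv k), Finset.sum_const, Nat.card_Ico,
            nsmul_eq_mul, show 8 * t ^ 2 - 4 * t ^ 2 = 4 * t ^ 2 by omega,
            ← ENNReal.ofReal_natCast, ← ENNReal.ofReal_mul (by positivity)]
          congr 1
          push_cast
          field_simp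
          ring
  have hfin : volume S ≠ ⊤ := by
    intro htop
    have := key 1 one_pos
    rw [htop] at this
    have h2 : (((2 * 1 ^ 2 : ℕ) : ℝ≥0∞)) * ⊤ = ⊤ := ENNReal.mul_top (by norm_num)
    rw [h2] at this
    exact absurd this (not_le.2 ENNReal.ofReal_lt_top)
  have hreal : ∀ t : ℕ, 0 < t → 2 * (t : ℝ) ^ 2 * (volume S).toReal ≤ 400 * (R + 58 * t) := by
    intro t ht
    have h1 := ENNReal.toReal_mono ENNReal.ofReal_ne_top (key t ht)
    rw [ENNReal.toReal_mul, ENNReal.toReal_ofReal (by positivity), ENNReal.toReal_natCast] at h1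
    push_cast at h1
    exact h1
  have hz : (volume S).toReal = 0 := by
    by_contra hne
    have hpos : 0 < (volume S).toReal := lt_of_le_of_ne ENNReal.toReal_nonneg (Ne.symm hne)
    set r := (volume S).toReal with hr
    obtain ⟨t, ht⟩ := exists_nat_gt (200 * (R + 58) / r)
    have ht' : 0 < t := by
      have h1 : 0 ≤ 200 * (R + 58) / r := by positivity
      have h2 : (0 : ℝ) < t := lt_of_le_of_lt h1 ht
      exact_mod_cast h2
    have ht1 : (1 : ℝ) ≤ t := by exact_mod_cast ht'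
    have h3 := hreal t ht'
    rw [div_lt_iff₀ hpos] at ht
    have h4 : 200 * (R + 58) * t < t * r * t := mul_lt_mul_of_pos_right ht (by linarith)
    have h5 : R ≤ R * t := by nlinarith
    nlinarith
  rcases (ENNReal.toReal_eq_zero_iff _).1 hz with h | h
  · exact h
  · exact absurd h hfin

lemma null_near : volume {q : ℝ × ℝ × ℝ | Near (L q)} = 0 := by
  have hsub : {q : ℝ × ℝ × ℝ | Near (L q)} ⊆
      ⋃ R : ℕ, {q : ℝ × ℝ × ℝ | Near (L q) ∧ -(R : ℝ) ≤ L q 0} := by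
    intro q hq
    obtain ⟨R, hR⟩ := exists_nat_ge (-(L q 0))
    exact mem_iUnion.2 ⟨R, hq, by linarith⟩
  exact measure_mono_null hsub (measure_iUnion_null fun R => null_AR (Nat.cast_nonneg R))

lemma ev_small {x : ℕ → ℝ} (hx : Tendsto (fun k => Real.exp (x k)) atTop (𝓝 1)) :
    ∀ᶠ k in atTop, |x k| ≤ 1/10 := by
  have h := (Real.continuousAt_log one_ne_zero).tendsto.comp hx
  rw [Real.log_one] at h
  have h2 := h.eventually (Metric.closedBall_mem_nhds (0 : ℝ) (show (0 : ℝ) < 1/10 by norm_num))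
  filter_upwards [h2] with k hk
  have : Real.log (Real.exp (x k)) ∈ Metric.closedBall (0 : ℝ) (1/10) := hk
  rw [Real.log_exp, Metric.mem_closedBall, Real.dist_eq, sub_zero] at this
  exact this

lemma null_cyc (i : ℕ) : volume {q : ℝ × ℝ × ℝ | Cyc (term (E q)) i} = 0 := by
  have hsub : {q : ℝ × ℝ × ℝ | Cyc (term (E q)) i} ⊆
      ⋃ K : ℕ, F^[3 * K + i] ⁻¹' {q : ℝ × ℝ × ℝ | Near (L q)} := by
    rintro q ⟨h0, h1, h2⟩
    simp only [term_E] at h0 h1 h2
    have e0 : ∀ᶠ k in atTop, L q (3 * k + i) ≤ -10 := by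
      have := h0.eventually (eventually_lt_nhds (Real.exp_pos (-10)))
      filter_upwards [this] with k hk
      exact (Real.exp_lt_exp.1 hk).le
    have e1 := ev_small h1
    have e2 := ev_small h2
    obtain ⟨K, hK⟩ := (e0.and (e1.and e2)).exists_forall_of_atTop
    refine mem_iUnion.2 ⟨K, ?_⟩
    show Near (L (F^[3 * K + i] q))
    refine ⟨L_sol _, ?_, ?_, ?_⟩
    · intro k
      rw [L_shift, show 3 * k + (3 * K + i) = 3 * (k + K) + i by ring]
      exact (hK (k + K) (by omega)).1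
    · intro k
      rw [L_shift, show 3 * k + 1 + (3 * K + i) = 3 * (k + K) + i + 1 by ring]
      exact (hK (k + K) (by omega)).2.1
    · intro k
      rw [L_shift, show 3 * k + 2 + (3 * K + i) = 3 * (k + K) + i + 2 by ring]
      exact (hK (k + K) (by omega)).2.2
  refine measure_mono_null hsub (measure_iUnion_null fun K => ?_)
  exact (F_mp.iterate _).quasiMeasurePreserving.preimage_null null_near

lemma null_EB : volume {q : ℝ × ℝ × ℝ | E q ∈ B} = 0 := by
  have hsub : {q : ℝ × ℝ × ℝ | E q ∈ B} ⊆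
      {q | Tendsto (L q) atTop (𝓝 (Real.log (1/2)))} ∪
        ⋃ i : ℕ, {q | Cyc (term (E q)) i} := by
    intro q hq
    have hq' : E q ∈ B := hq
    obtain ⟨M, hM⟩ := hq'.2
    rcases (sol (E_pos q)).conv hM ((B_iff (E_pos q)).1 hq') with h | h
    · left
      have h1 := (Real.continuousAt_log (show (1/2 : ℝ) ≠ 0 by norm_num)).tendsto.comp h.1
      refine h1.congr (fun n => ?_)
      show Real.log (term (E q) n) = L q n
      rw [term_E, Real.log_exp]
    · right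
      obtain ⟨⟨i, -, hi⟩, -⟩ := h
      exact mem_iUnion.2 ⟨i, hi⟩
  exact measure_mono_null hsub
    (measure_union_null (null_half _) (measure_iUnion_null fun i => null_cyc i))

/-- the set of the bounded solutions has measure zero -/
theorem vol_B : volume B = 0 := by
  have hsub : B ⊆ E '' {q | E q ∈ B} := by
    intro p hp
    have e : E (Real.log p.1, Real.log p.2.1, Real.log p.2.2) = p := by
      unfold E
      simp only [Real.exp_log hp.1.1, Real.exp_log hp.1.2.1, Real.exp_log hp.1.2.2]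
    exact ⟨_, by show E _ ∈ B; rw [e]; exact hp, e⟩
  refine measure_mono_null hsub ?_
  have i1 : (volume : Measure (ℝ × ℝ)).IsAddHaarMeasure :=
    inferInstanceAs ((volume : Measure ℝ).prod (volume : Measure ℝ)).IsAddHaarMeasure
  have i2 : (volume : Measure (ℝ × ℝ × ℝ)).IsAddHaarMeasure :=
    inferInstanceAs ((volume : Measure ℝ).prod (volume : Measure (ℝ × ℝ))).IsAddHaarMeasure
  apply addHaar_image_eq_zero_of_differentiableOn_of_addHaar_eq_zero
  · have : Differentiable ℝ E := by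
      unfold E
      fun_prop
    exact this.differentiableOn
  · exact null_EB

end Pool.Agent.T2H59.RR
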