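import Pool.Agent.T2H59.RR.R6

open Filter Topology Set MeasureTheory
open scoped ENNReal

namespace Pool.Agent.T2H59.RR

/-- along the unbounded solutions `G` tends to minus infinity -/
lemma Sol.lim_bot {x : ℕ → ℝ} (h : Sol x) {i : ℕ} (hb : Blow x i) :
    Tendsto (GG x) atTop atBot := by
  obtain ⟨h0, h1, h2⟩ := hb
  have hy : ∀ᶠ k in atTop, x (3 * k + i + 1) < 1/4 :=
    h1.eventually (eventually_lt_nhds (by norm_num))
  have hz : ∀ᶠ k in atTop, x (3 * k + i + 2) < 1/4 :=
    h2.eventually (eventually_lt_nhds (by norm_num))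
  have key : ∀ᶠ k in atTop, GG x (3 * k + i) ≤ 1 - x (3 * k + i) / 2 := by
    filter_upwards [hy, hz] with k h3 h4
    have p0 := h.pos (3 * k + i)
    have p1 := h.pos (3 * k + i + 1)
    have p2 := h.pos (3 * k + i + 2)
    unfold GG G
    set a := x (3 * k + i)
    set b := x (3 * k + i + 1)
    set c := x (3 * k + i + 2)
    have e : a * b * c + (1 - a) * (1 - b) * (1 - c) =
      (1 - b) * (1 - c) - a * (1 - b - c) := by ring
    rw [e]
    have e1 : (1 - b) * (1 - c) ≤ 1 := by nlinarith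
    have e2 : a / 2 ≤ a * (1 - b - c) := by nlinarith
    linarith
  rw [tendsto_atBot]
  intro M
  have h5 : ∀ᶠ k in atTop, 2 * (1 - M) ≤ x (3 * k + i) := h0.eventually (eventually_ge_atTop _)
  obtain ⟨k, hk1, hk2⟩ := (key.and h5).exists
  filter_upwards [eventually_ge_atTop (3 * k + i)] with n hn
  have := h.anti hn
  linarith

lemma lim_neg {p : ℝ × ℝ × ℝ} (hp : p ∈ Pos) (hB : p ∉ B) :
    Tendsto (GG (term p)) atTop atBot := by
  obtain ⟨i, -, hb⟩ := not_B hp hB
  exact (sol hp).lim_bot hb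

/-- the stable set of the equilibrium -/
lemma half_iff {p : ℝ × ℝ × ℝ} (hp : p ∈ Pos) :
    Tendsto (term p) atTop (𝓝 (1/2)) ↔ ∀ n, 1/4 ≤ GG (term p) n := by
  constructor
  · intro h n
    have h1 : Tendsto (fun n => term p (n + 1)) atTop (𝓝 (1/2)) :=
      h.comp (tendsto_add_atTop_nat 1)
    have h2 : Tendsto (fun n => term p (n + 2)) atTop (𝓝 (1/2)) :=
      h.comp (tendsto_add_atTop_nat 2)
    have hG : Tendsto (GG (term p)) atTop (𝓝 ((1/2 : ℝ) * (1/2) * (1/2) +
        (1 - 1/2) * (1 - 1/2) * (1 - 1/2))) := by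
      unfold GG G
      exact ((h.mul h1).mul h2).add (((tendsto_const_nhds.sub h).mul
        (tendsto_const_nhds.sub h1)).mul (tendsto_const_nhds.sub h2))
    have := (sol hp).anti.le_of_tendsto hG n
    norm_num at this ⊢
    exact this
  · intro h
    have hB : p ∈ B := (B_iff hp).2 (fun n => le_trans (by norm_num) (h n))
    obtain ⟨M, hM⟩ := hB.2
    rcases (sol hp).conv hM ((B_iff hp).1 hB) with h1 | h1
    · exact h1.1
    · exfalso
      have := ge_of_tendsto' h1.2 h
      norm_num at this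

lemma dense_unbdd : Pos ⊆ closure (Pos \ B) := by
  intro p hp
  rw [mem_closure_iff]
  intro V hV hpV
  by_contra hcon
  rw [Set.not_nonempty_iff_eq_empty] at hcon
  have hsub : V ∩ Pos ⊆ B := by
    intro q hq
    by_contra hqB
    have : q ∈ V ∩ (Pos \ B) := ⟨hq.1, hq.2, hqB⟩
    rw [hcon] at this
    exact this
  have h0 : volume (V ∩ Pos) = 0 := measure_mono_null hsub vol_B
  have hne : (V ∩ Pos).Nonempty := ⟨p, hpV, hp⟩
  exact absurd h0 ((hV.inter Pos_open).measure_pos volume hne).ne'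

lemma open_unbdd : IsOpen (Pos \ B) := by
  rw [Pos_diff]
  exact ((U_open (by norm_num)).union (U_open (by norm_num))).union (U_open (by norm_num))

end Pool.Agent.T2H59.RR
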