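import Pool.Agent.T2H59.RR.R7

open Filter Topology Set MeasureTheory
open scoped ENNReal

namespace Pool.Agent.T2H59.RR

/-- the inverse of the step -/
noncomputable def S (p : ℝ × ℝ × ℝ) : ℝ × ℝ × ℝ :=
  (p.2.2 * (1 + p.1 + p.2.1) / 2, p.1, p.2.1)

lemma step_S {p : ℝ × ℝ × ℝ} (hp : p ∈ Pos) : step (S p) = p := by
  obtain ⟨h1, h2, h3⟩ := hp
  have e : 2 * (p.2.2 * (1 + p.1 + p.2.1) / 2) / (1 + p.2.1 + p.1) = p.2.2 := by
    field_simp
    ring
  exact Prod.ext rfl (Prod.ext rfl e)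

lemma S_pos {p : ℝ × ℝ × ℝ} (hp : p ∈ Pos) : S p ∈ Pos := by
  obtain ⟨h1, h2, h3⟩ := hp
  refine ⟨?_, h1, h2⟩
  show 0 < p.2.2 * (1 + p.1 + p.2.1) / 2
  positivity

lemma S_iter_pos {p : ℝ × ℝ × ℝ} (hp : p ∈ Pos) (n : ℕ) : S^[n] p ∈ Pos := by
  induction n with
  | zero => exact hp
  | succ n ih =>
    rw [Function.iterate_succ_apply']
    exact S_pos ih

lemma step_iter_S {q : ℝ × ℝ × ℝ} (hq : q ∈ Pos) (j m : ℕ) :
    step^[j] (S^[m + j] q) = S^[m] q := by
  induction j with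
  | zero => rfl
  | succ j ih =>
    rw [show m + (j + 1) = (m + j) + 1 by ring, Function.iterate_succ_apply' S,
      Function.iterate_succ_apply step, step_S (S_iter_pos hq _), ih]

/-- the backward orbit of the constant triple -/
noncomputable def y (t : ℝ) (n : ℕ) : ℝ := (S^[n] (t, t, t)).2.2

lemma y1 (t : ℝ) (n : ℕ) : (S^[n] (t, t, t)).2.1 = y t (n + 1) := by
  unfold y
  rw [Function.iterate_succ_apply']
  rfl

lemma y2 (t : ℝ) (n : ℕ) : (S^[n] (t, t, t)).1 = y t (n + 2) := by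
  rw [show n + 2 = (n + 1) + 1 by ring, ← y1, Function.iterate_succ_apply']
  rfl

lemma y_rec (t : ℝ) (n : ℕ) : y t (n + 3) = y t n * (1 + y t (n + 2) + y t (n + 1)) / 2 := by
  rw [show n + 3 = (n + 1) + 2 by ring, ← y2 t (n + 1), Function.iterate_succ_apply', ← y2 t n,
    ← y1 t n]
  rfl

lemma y_eq (t : ℝ) (n : ℕ) : S^[n] (t, t, t) = (y t (n + 2), y t (n + 1), y t n) := by
  rw [← y2, ← y1]
  rfl

lemma y_cont (n : ℕ) : Continuous (fun t => y t n) := by
  have h : Continuous S := by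
    unfold S
    fun_prop
  have h2 : Continuous (fun t : ℝ => (t, t, t)) := by fun_prop
  exact continuous_snd.comp (continuous_snd.comp ((h.iterate n).comp h2))

lemma y_half (n : ℕ) : y (1/2) n = 1/2 := by
  have h : S^[n] (1/2, 1/2, 1/2) = (1/2, 1/2, 1/2) :=
    Function.iterate_fixed (by unfold S; norm_num) n
  unfold y
  rw [h]

lemma y_incr {t : ℝ} (ht : 1/2 ≤ t) (n : ℕ) : t ≤ y t n ∧ y t n ≤ y t (n + 1) ∧
    y t (n + 1) ≤ y t (n + 2) ∧ y t (n + 2) ≤ y t (n + 3) := by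
  induction n with
  | zero =>
    have e : y t 3 = t * (1 + t + t) / 2 := y_rec t 0
    refine ⟨le_rfl, le_rfl, le_rfl, ?_⟩
    show t ≤ y t 3
    rw [e]
    nlinarith
  | succ n ih =>
    obtain ⟨h1, h2, h3, h4⟩ := ih
    have e3 := y_rec t n
    have e4 := y_rec t (n + 1)
    rw [show n + 1 + 3 = n + 4 by ring, show n + 1 + 2 = n + 3 by ring,
      show n + 1 + 1 = n + 2 by ring] at *
    refine ⟨h1.trans h2, h3, h4, ?_⟩
    have a : y t n * (1 + y t (n + 2) + y t (n + 1)) ≤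
        y t (n + 1) * (1 + y t (n + 3) + y t (n + 2)) :=
      mul_le_mul h2 (by linarith) (by linarith) (by linarith)
    linarith

lemma y_decr {t : ℝ} (ht0 : 0 < t) (ht : t ≤ 1/2) (n : ℕ) : y t n ≤ t ∧ y t (n + 1) ≤ y t n ∧
    y t (n + 2) ≤ y t (n + 1) ∧ y t (n + 3) ≤ y t (n + 2) := by
  have hp : ∀ m, 0 < y t m := fun m => (S_iter_pos (p := (t, t, t)) ⟨ht0, ht0, ht0⟩ m).2.2
  induction n with
  | zero =>
    have e : y t 3 = t * (1 + t + t) / 2 := y_rec t 0
    refine ⟨le_rfl, le_rfl, le_rfl, ?_⟩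
    show y t 3 ≤ t
    rw [e]
    nlinarith
  | succ n ih =>
    obtain ⟨h1, h2, h3, h4⟩ := ih
    have e3 := y_rec t n
    have e4 := y_rec t (n + 1)
    have p0 := hp n
    have p1 := hp (n + 1)
    have p2 := hp (n + 2)
    have p3 := hp (n + 3)
    rw [show n + 1 + 3 = n + 4 by ring, show n + 1 + 2 = n + 3 by ring,
      show n + 1 + 1 = n + 2 by ring] at *
    refine ⟨h2.trans h1, h3, h4, ?_⟩
    have a : y t (n + 1) * (1 + y t (n + 3) + y t (n + 2)) ≤
        y t n * (1 + y t (n + 2) + y t (n + 1)) :=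
      mul_le_mul h2 (by linarith) (by linarith) (by linarith)
    linarith

lemma term_y {t : ℝ} (ht : 0 < t) (j m : ℕ) : term (S^[m + j] (t, t, t)) j = y t (m + 2) := by
  unfold term
  rw [step_iter_S ⟨ht, ht, ht⟩, y2]

lemma exists_chain {r a b : ℝ} (hr : 0 < r) (ha : 0 < a) {C : Set (ℝ × ℝ)} (hC : IsClosed C)
    (h : ∀ n, ∃ t, 0 < t ∧ y t (n + 2) = r ∧ y t (n + 1) ∈ Icc a b ∧ y t n ∈ Icc a b ∧
      ∀ m, (y t (m + 1), y t m) ∈ C) :
    ∃ p : ℝ × ℝ × ℝ, p ∈ Pos ∧ p.1 = r ∧ ∀ j, (term p j, term p (j + 1)) ∈ C := by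
  set g : ℕ → ℝ × ℝ → ℝ := fun j q => (step'^[j] (r, q.1, q.2)).1 with hg
  have hgc : ∀ j, Continuous (g j) := fun j =>
    continuous_fst.comp ((step'_cont.iterate j).comp (by fun_prop))
  set K : ℕ → Set (ℝ × ℝ) := fun n => (Icc a b ×ˢ Icc a b) ∩
    ⋂ j, ⋂ (_ : j < n), {q | (g j q, g (j + 1) q) ∈ C} with hK
  have hcl : ∀ n, IsClosed (K n) := by
    intro n
    apply (isClosed_Icc.prod isClosed_Icc).inter
    exact isClosed_iInter fun j => isClosed_iInter fun _ =>
      hC.preimage ((hgc j).prodMk (hgc (j + 1)))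
  have hcomp : IsCompact (K 0) := by
    apply (isCompact_Icc.prod isCompact_Icc).inter_right
    exact isClosed_iInter fun j => isClosed_iInter fun _ =>
      hC.preimage ((hgc j).prodMk (hgc (j + 1)))
  have hanti : ∀ n, K (n + 1) ⊆ K n := by
    intro n q hq
    refine ⟨hq.1, ?_⟩
    have h2 := hq.2
    simp only [mem_iInter] at h2 ⊢
    exact fun j hj => h2 j (by omega)
  have hne : ∀ n, (K n).Nonempty := by
    intro n
    obtain ⟨t, ht, hty, h1, h0, hc⟩ := h n
    have hp : S^[n] (t, t, t) ∈ Pos := S_iter_pos (p := (t, t, t)) ⟨ht, ht, ht⟩ n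
    have e : (r, y t (n + 1), y t n) = S^[n] (t, t, t) := by rw [y_eq, hty]
    have e1 : ∀ j, j ≤ n → g j (y t (n + 1), y t n) = y t (n - j + 2) := by
      intro j hj
      show (step'^[j] (r, y t (n + 1), y t n)).1 = _
      rw [e, iter_eq hp]
      have := term_y ht j (n - j)
      rw [Nat.sub_add_cancel hj] at this
      exact this
    refine ⟨(y t (n + 1), y t n), ⟨h1, h0⟩, ?_⟩
    simp only [mem_iInter]
    intro j hj
    show (g j (y t (n + 1), y t n), g (j + 1) (y t (n + 1), y t n)) ∈ C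
    rw [e1 j hj.le, e1 (j + 1) hj, show n - j + 2 = (n - (j + 1) + 2) + 1 by omega]
    exact hc _
  obtain ⟨q, hq⟩ := IsCompact.nonempty_iInter_of_sequence_nonempty_isCompact_isClosed K hanti hne
    hcomp hcl
  rw [mem_iInter] at hq
  have hq0 := (hq 0).1
  have hP : (r, q.1, q.2) ∈ Pos :=
    ⟨hr, lt_of_lt_of_le ha hq0.1.1, lt_of_lt_of_le ha hq0.2.1⟩
  refine ⟨(r, q.1, q.2), hP, rfl, fun j => ?_⟩
  have h2 := (hq (j + 1)).2
  simp only [mem_iInter] at h2
  have h3 := h2 j (Nat.lt_succ_self j)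
  have e1 : ∀ i, g i q = term (r, q.1, q.2) i := by
    intro i
    show (step'^[i] (r, q.1, q.2)).1 = (step^[i] (r, q.1, q.2)).1
    rw [iter_eq hP]
  have h4 : (g j q, g (j + 1) q) ∈ C := h3
  rwa [e1, e1] at h4

/-- for every positive `r` there is a monotone solution which starts with `r` and tends to `1/2` -/
theorem mono_half {r : ℝ} (hr : 0 < r) : ∃ p ∈ Pos, p.1 = r ∧
    Tendsto (term p) atTop (𝓝 (1/2)) ∧ (1/2 ≤ r → Antitone (term p)) ∧
      (r ≤ 1/2 → Monotone (term p)) := by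
  have fin : ∀ {p : ℝ × ℝ × ℝ} {a M : ℝ}, p ∈ Pos → 0 < a → (∀ j, a ≤ term p j) →
      (∀ j, term p j ≤ M) → Tendsto (term p) atTop (𝓝 (1/2)) := by
    intro p a M hp ha h1 h2
    have hB : p ∈ B := ⟨hp, M, h2⟩
    rcases (sol hp).conv h2 ((B_iff hp).1 hB) with h | h
    · exact h.1
    · exfalso
      obtain ⟨⟨i, -, h0, -, -⟩, -⟩ := h
      have := ge_of_tendsto' h0 (fun k => h1 (3 * k + i))
      linarith
  rcases le_total (1/2) r with h2 | h2
  · obtain ⟨p, hp, hp1, hj⟩ := exists_chain (r := r) (a := 1/2) (b := r)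
      (C := {q : ℝ × ℝ | q.2 ≤ q.1 ∧ 1/2 ≤ q.2}) hr (by norm_num)
      ((isClosed_le continuous_snd continuous_fst).inter
        (isClosed_le continuous_const continuous_snd)) (by
        intro n
        obtain ⟨t, ht, hty⟩ := intermediate_value_Icc h2 (y_cont (n + 2)).continuousOn
          ⟨by simp only [y_half]; exact h2, (y_incr h2 (n + 2)).1⟩
        simp only at hty
        have i0 := y_incr ht.1 n
        have ht1 := ht.1
        refine ⟨t, by linarith, hty, ⟨by linarith, by linarith⟩, ⟨by linarith, by linarith⟩, ?_⟩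
        intro m
        have im := y_incr ht.1 m
        exact ⟨im.2.1, by show 1/2 ≤ y t m; linarith [im.1]⟩)
    have hanti : Antitone (term p) := antitone_nat_of_succ_le fun j => (hj j).1
    have hlow : ∀ j, 1/2 ≤ term p j := fun j => (hj j).2.trans (hj j).1
    refine ⟨p, hp, hp1, fin hp (show (0 : ℝ) < 1/2 by norm_num) hlow
      (fun j => hanti (Nat.zero_le j)), fun _ => hanti, fun hr2 => ?_⟩
    apply monotone_nat_of_le_succ
    intro j
    have a1 : term p j ≤ term p 0 := hanti (Nat.zero_le j)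
    have a2 : term p 0 = r := hp1
    have a3 := hlow (j + 1)
    linarith
  · obtain ⟨p, hp, hp1, hj⟩ := exists_chain (r := r) (a := r) (b := 1/2)
      (C := {q : ℝ × ℝ | q.1 ≤ q.2 ∧ q.2 ≤ 1/2}) hr hr
      ((isClosed_le continuous_fst continuous_snd).inter
        (isClosed_le continuous_snd continuous_const)) (by
        intro n
        obtain ⟨t, ht, hty⟩ := intermediate_value_Icc h2 (y_cont (n + 2)).continuousOn
          ⟨(y_decr hr h2 (n + 2)).1, by simp only [y_half]; exact h2⟩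
        simp only at hty
        have ht0 : 0 < t := lt_of_lt_of_le hr ht.1
        have i0 := y_decr ht0 ht.2 n
        have ht2 := ht.2
        refine ⟨t, ht0, hty, ⟨by linarith, by linarith⟩, ⟨by linarith, by linarith⟩, ?_⟩
        intro m
        have im := y_decr ht0 ht.2 m
        exact ⟨im.2.1, by show y t m ≤ 1/2; linarith [im.1]⟩)
    have hmono : Monotone (term p) := monotone_nat_of_le_succ fun j => (hj j).1
    have hup : ∀ j, term p j ≤ 1/2 := fun j => (hj j).1.trans (hj j).2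
    have hlow : ∀ j, r ≤ term p j := by
      intro j
      have a1 : term p 0 ≤ term p j := hmono (Nat.zero_le j)
      have a2 : term p 0 = r := hp1
      linarith
    refine ⟨p, hp, hp1, fin hp hr hlow hup, fun hr2 => ?_, fun _ => hmono⟩
    apply antitone_nat_of_succ_le
    intro j
    have a3 := hlow j
    have a4 := hup (j + 1)
    linarith

end Pool.Agent.T2H59.RR
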