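import Pool.Agent.T2H59.RR.R8

open Filter Topology Set MeasureTheory
open scoped ENNReal

namespace Pool.Agent.T2H59.RR

/-- a quadratic form adapted to the linearisation at `1/2` -/
def QF (a b c : ℝ) : ℝ := 8 * a ^ 2 + 10 * b ^ 2 + 10 * c ^ 2 - 16 * a * b - 12 * a * c - 9 * b * c

lemma QF_step (a b c e : ℝ) (he : e ^ 2 ≤ (b ^ 2 + c ^ 2) / 10000) :
    QF a b c + (a ^ 2 + b ^ 2 + c ^ 2) / 4 ≤ QF b c (a - b / 4 - c / 4 + e) := by
  have id : QF b c (a - b / 4 - c / 4 + e) - QF a b c + 600 * e ^ 2 -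
      (600/10000) * (b ^ 2 + c ^ 2) - (a ^ 2 + b ^ 2 + c ^ 2) / 4 =
      (610) * ((1) * e + (1/61) * a + (-17/1220) * b + (-7/610) * c) ^ 2 + (387/244) * ((1) * a + (-88/387) * b + (-24/43) * c) ^ 2 + (43133/38700) * ((1) * b + (-21240/43133) * c) ^ 2 + (14840489/8626600) * ((1) * c) ^ 2 := by
    unfold QF
    ring
  have h1 : 0 ≤ (610 : ℝ) * ((1) * e + (1/61) * a + (-17/1220) * b + (-7/610) * c) ^ 2 + (387/244) * ((1) * a + (-88/387) * b + (-24/43) * c) ^ 2 + (43133/38700) * ((1) * b + (-21240/43133) * c) ^ 2 + (14840489/8626600) * ((1) * c) ^ 2 := by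
    positivity
  rw [← id] at h1
  linarith

lemma QF_ab {a b c : ℝ} (h : a * b ≤ 0) : 0 ≤ QF a b c := by
  have id : QF a b c + 47/2 * (a * b) = (8) * ((1) * a + (15/32) * b + (-3/4) * c) ^ 2 + (1055/128) * ((1) * b + (-216/1055) * c) ^ 2 + (5438/1055) * ((1) * c) ^ 2 := by
    unfold QF
    ring
  have h1 : 0 ≤ (8 : ℝ) * ((1) * a + (15/32) * b + (-3/4) * c) ^ 2 + (1055/128) * ((1) * b + (-216/1055) * c) ^ 2 + (5438/1055) * ((1) * c) ^ 2 := by
    positivity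
  rw [← id] at h1
  linarith

lemma QF_bc {a b c : ℝ} (h : b * c ≤ 0) : 0 ≤ QF a b c := by
  have id : QF a b c + 45/2 * (b * c) = (8) * ((1) * a + (-1) * b + (-3/4) * c) ^ 2 + (2) * ((1) * b + (3/8) * c) ^ 2 + (167/32) * ((1) * c) ^ 2 := by
    unfold QF
    ring
  have h1 : 0 ≤ (8 : ℝ) * ((1) * a + (-1) * b + (-3/4) * c) ^ 2 + (2) * ((1) * b + (3/8) * c) ^ 2 + (167/32) * ((1) * c) ^ 2 := by
    positivity
  rw [← id] at h1
  linarith

lemma QF_ac {a b c : ℝ} (h : a * c ≤ 0) : 0 ≤ QF a b c := by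
  have id : QF a b c + 20 * (a * c) = (8) * ((1) * a + (-1) * b + (1/2) * c) ^ 2 + (2) * ((1) * b + (-1/4) * c) ^ 2 + (63/8) * ((1) * c) ^ 2 := by
    unfold QF
    ring
  have h1 : 0 ≤ (8 : ℝ) * ((1) * a + (-1) * b + (1/2) * c) ^ 2 + (2) * ((1) * b + (-1/4) * c) ^ 2 + (63/8) * ((1) * c) ^ 2 := by
    positivity
  rw [← id] at h1
  linarith

/-- the three differences have one sign -/
def Rel (d : ℕ → ℝ) (n : ℕ) : Prop :=
  (d n ≤ 0 ∧ d (n + 1) ≤ 0 ∧ d (n + 2) ≤ 0) ∨ (0 ≤ d n ∧ 0 ≤ d (n + 1) ∧ 0 ≤ d (n + 2))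

lemma QF_nonneg {d : ℕ → ℝ} {n : ℕ} (h : ¬ Rel d n) :
    0 ≤ QF (d n) (d (n + 1)) (d (n + 2)) ∧ 0 < d n ^ 2 + d (n + 1) ^ 2 + d (n + 2) ^ 2 := by
  unfold Rel at h
  set a := d n
  set b := d (n + 1)
  set c := d (n + 2)
  have hpos : 0 < a ^ 2 + b ^ 2 + c ^ 2 := by
    by_contra hcon
    have ha : a = 0 := by nlinarith [sq_nonneg a, sq_nonneg b, sq_nonneg c]
    have hb : b = 0 := by nlinarith [sq_nonneg a, sq_nonneg b, sq_nonneg c]
    have hc : c = 0 := by nlinarith [sq_nonneg a, sq_nonneg b, sq_nonneg c]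
    exact h (Or.inl ⟨ha.le, hb.le, hc.le⟩)
  refine ⟨?_, hpos⟩
  by_contra hcon
  push Not at hcon
  have h1 : 0 < a * b := by
    by_contra h2
    exact absurd (QF_ab (c := c) (not_lt.1 h2)) (not_le.2 hcon)
  have h2 : 0 < b * c := by
    by_contra h2
    exact absurd (QF_bc (a := a) (not_lt.1 h2)) (not_le.2 hcon)
  rcases pos_and_pos_or_neg_and_neg_of_mul_pos h1 with ⟨ha, hb⟩ | ⟨ha, hb⟩
  · have hc : 0 < c := (pos_iff_pos_of_mul_pos h2).1 hb
    exact h (Or.inr ⟨ha.le, hb.le, hc.le⟩)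
  · have hc : c < 0 := (neg_iff_neg_of_mul_pos h2).1 hb
    exact h (Or.inl ⟨ha.le, hb.le, hc.le⟩)

/-- a solution in terms of a later triple -/
lemma Sol.back {x : ℕ → ℝ} (h : Sol x) (n : ℕ) :
    x n = x (n + 3) * (1 + x (n + 2) + x (n + 1)) / 2 := by
  have := h.eqn n
  have h1 := h.pos (n + 1)
  have h2 := h.pos (n + 2)
  rw [this]
  field_simp

lemma back_le {x z : ℕ → ℝ} (hx : Sol x) (hz : Sol z) (n : ℕ) (h1 : x (n + 1) ≤ z (n + 1))
    (h2 : x (n + 2) ≤ z (n + 2)) (h3 : x (n + 3) ≤ z (n + 3)) : x n ≤ z n := by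
  rw [hx.back n, hz.back n]
  have p1 := hx.pos (n + 1)
  have p2 := hx.pos (n + 2)
  have p3 := hx.pos (n + 3)
  have : x (n + 3) * (1 + x (n + 2) + x (n + 1)) ≤ z (n + 3) * (1 + z (n + 2) + z (n + 1)) :=
    mul_le_mul h3 (by linarith) (by linarith) (by linarith)
  linarith

/-- logarithmic difference -/
noncomputable def dl (x z : ℕ → ℝ) (n : ℕ) : ℝ := Real.log (x n) - Real.log (z n)

lemma dl_nonpos {x z : ℕ → ℝ} (hx : Sol x) (hz : Sol z) (n : ℕ) : dl x z n ≤ 0 ↔ x n ≤ z n := by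
  unfold dl
  rw [sub_nonpos, Real.log_le_log_iff (hx.pos n) (hz.pos n)]

lemma dl_nonneg {x z : ℕ → ℝ} (hx : Sol x) (hz : Sol z) (n : ℕ) : 0 ≤ dl x z n ↔ z n ≤ x n := by
  unfold dl
  rw [sub_nonneg, Real.log_le_log_iff (hz.pos n) (hx.pos n)]

lemma rel_back {x z : ℕ → ℝ} (hx : Sol x) (hz : Sol z) {n : ℕ} (h : Rel (dl x z) (n + 1)) :
    Rel (dl x z) n := by
  rcases h with ⟨h1, h2, h3⟩ | ⟨h1, h2, h3⟩
  · left
    rw [dl_nonpos hx hz] at h1 h2 h3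
    exact ⟨(dl_nonpos hx hz _).2 (back_le hx hz n h1 h2 h3), (dl_nonpos hx hz _).2 h1,
      (dl_nonpos hx hz _).2 h2⟩
  · right
    rw [dl_nonneg hx hz] at h1 h2 h3
    exact ⟨(dl_nonneg hx hz _).2 (back_le hz hx n h1 h2 h3), (dl_nonneg hx hz _).2 h1,
      (dl_nonneg hx hz _).2 h2⟩

/-- strict differentiability of the logarithmic step at the equilibrium -/
lemma strict : ∃ ε > 0, ∀ v w v' w' : ℝ, |v - Real.log (1/2)| < ε → |w - Real.log (1/2)| < ε →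
    |v' - Real.log (1/2)| < ε → |w' - Real.log (1/2)| < ε →
    (Real.log (1 + Real.exp w + Real.exp v) - Real.log (1 + Real.exp w' + Real.exp v') -
      ((v - v') / 4 + (w - w') / 4)) ^ 2 ≤ ((v - v') ^ 2 + (w - w') ^ 2) / 10000 := by
  set c := Real.log (1/2) with hc
  have hec : Real.exp c = 1/2 := Real.exp_log (by norm_num)
  have hd : HasStrictFDerivAt (fun q : ℝ × ℝ => Real.log (1 + Real.exp q.2 + Real.exp q.1))
      ((1 + Real.exp c + Real.exp c)⁻¹ • (Real.exp c • ContinuousLinearMap.snd ℝ ℝ ℝ +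
        Real.exp c • ContinuousLinearMap.fst ℝ ℝ ℝ)) (c, c) := by
    have h1 : HasStrictFDerivAt (fun q : ℝ × ℝ => q.1) (ContinuousLinearMap.fst ℝ ℝ ℝ) (c, c) :=
      hasStrictFDerivAt_fst
    have h2 : HasStrictFDerivAt (fun q : ℝ × ℝ => q.2) (ContinuousLinearMap.snd ℝ ℝ ℝ) (c, c) :=
      hasStrictFDerivAt_snd
    have h3 := ((h2.exp.const_add 1).add h1.exp)
    exact h3.log (show (1 + Real.exp c + Real.exp c : ℝ) ≠ 0 by positivity)
  have h4 := (hd.isLittleO.def (show (0 : ℝ) < 1/100 by norm_num))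
  obtain ⟨ε, hε, hball⟩ := Metric.eventually_nhds_iff.1 h4
  refine ⟨ε, hε, fun v w v' w' a1 a2 a3 a4 => ?_⟩
  have h5 := hball (y := ((v, w), (v', w'))) (by
    rw [Prod.dist_eq, Prod.dist_eq, Prod.dist_eq]
    simp only [Real.dist_eq]
    exact max_lt (max_lt a1 a2) (max_lt a3 a4))
  simp only [Prod.mk_sub_mk, smul_apply, add_apply,
    ContinuousLinearMap.coe_fst', ContinuousLinearMap.coe_snd', smul_eq_mul, hec,
    Real.norm_eq_abs, Prod.norm_mk] at h5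
  have e : (1 + 1/2 + 1/2 : ℝ)⁻¹ * (1/2 * (w - w') + 1/2 * (v - v')) =
      (v - v') / 4 + (w - w') / 4 := by
    norm_num
    ring
  rw [e] at h5
  have h6 : |v - v'| ⊔ |w - w'| ≤ Real.sqrt ((v - v') ^ 2 + (w - w') ^ 2) := by
    apply max_le
    · apply Real.abs_le_sqrt
      nlinarith [sq_nonneg (w - w')]
    · apply Real.abs_le_sqrt
      nlinarith [sq_nonneg (v - v')]
  have h7 := h5.trans (mul_le_mul_of_nonneg_left h6 (by norm_num))
  have h8 : 0 ≤ 1/100 * Real.sqrt ((v - v') ^ 2 + (w - w') ^ 2) := by positivity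
  have h9 := sq_le_sq' (by linarith [abs_nonneg (Real.log (1 + Real.exp w + Real.exp v) -
    Real.log (1 + Real.exp w' + Real.exp v') - ((v - v') / 4 + (w - w') / 4))]) h7
  rw [sq_abs, mul_pow, Real.sq_sqrt (by positivity)] at h9
  linarith

end Pool.Agent.T2H59.RR
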